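import Pool.Agent.H389R2.CD.Std

/-!
# Good boxes at a wired line
-/

set_option autoImplicit false
set_option maxHeartbeats 1000000

namespace Pool.Agent.H389R2.CD
open Finset H974 Pool.Agent.H160R2.CV

/-- far reaching vertices are glued by the circuit -/
theorem glueT {r : ℕ} (hr : 1 ≤ r) {F : Finset Edg} (hC : Circ (2 * r) (4 * r) F) :
    ∃ z : Vtx, (∀ x ∈ FT r F, Reach (↑F ∩ ↑(boxE (6 * r))) x z) ∧
      ∀ u v : Vtx, inR (-(2 * r)) (2 * r) (-(2 * r)) (2 * r) u →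
        (v.1 ≤ -(4 * (r : ℤ)) ∨ 4 * (r : ℤ) ≤ v.1 ∨ v.2 ≤ -(4 * (r : ℤ)) ∨ 4 * (r : ℤ) ≤ v.2) →
        Reach (↑F ∩ ↑(boxE (6 * r))) u v → Reach (↑F ∩ ↑(boxE (6 * r))) u z := by
  have hrz : (1 : ℤ) ≤ r := by exact_mod_cast hr
  obtain ⟨z, hz⟩ := circ_meet (by positivity) (by omega) hC
  have hsub : (↑F : Set Edg) ∩ ↑(RE (-(4 * (r : ℤ))) (4 * r) (-(4 * r)) (4 * r)) ⊆
      ↑F ∩ ↑(boxE (6 * r)) := by
    apply Set.inter_subset_inter_right
    have : RE (-(4 * (r : ℤ))) (4 * r) (-(4 * r)) (4 * r) ⊆ boxE (6 * r) := by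
      unfold boxE
      exact RE_subset (by push_cast; omega) (by push_cast; omega) (by push_cast; omega)
        (by push_cast; omega)
    exact_mod_cast this
  have key : ∀ u v : Vtx, inR (-(2 * r)) (2 * r) (-(2 * r)) (2 * r) u →
        (v.1 ≤ -(4 * (r : ℤ)) ∨ 4 * (r : ℤ) ≤ v.1 ∨ v.2 ≤ -(4 * (r : ℤ)) ∨ 4 * (r : ℤ) ≤ v.2) →
        Reach (↑F ∩ ↑(boxE (6 * r))) u v → Reach (↑F ∩ ↑(boxE (6 * r))) u z := by
    intro u v hu hv h
    obtain ⟨w, k1, k2, k3⟩ := first_exit (a := -(4 * (r : ℤ))) (b := 4 * r) (c := -(4 * r))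
      (d := 4 * r) (u := u) (v := v) (by unfold inR at hu ⊢; omega) h hv
    have k4 : Reach (↑F ∩ ↑(RE (-(4 * (r : ℤ))) (4 * r) (-(4 * r)) (4 * r))) u w :=
      k3.mono (by rintro e ⟨⟨h4, -⟩, h5⟩; exact ⟨h4, h5⟩)
    exact (hz u w hu k2 k4).mono hsub
  refine ⟨z, ?_, key⟩
  intro x hx
  rw [mem_FT] at hx
  obtain ⟨hx1, u, hu, hru⟩ := hx
  rw [Finset.coe_inter] at hru
  rw [w_mem_bx] at hx1
  refine key x u (by unfold inR; omega) ?_ hru
  unfold nv at hu
  simp only [Prod.fst_sub, Prod.snd_sub] at hu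
  omega

/-- A good box at the wired line `y = -6 r`. -/
def GB (t a E : ℝ) (r : ℕ) (F : Finset Edg) : Prop :=
  ∃ T : Finset Vtx, SG t a E r T ∧ (∀ x ∈ T, x ∈ bx r) ∧ ∃ u : Vtx, u.2 = -(6 * (r : ℤ)) ∧
    -(2 * (r : ℤ)) ≤ u.1 ∧ u.1 ≤ 2 * r ∧ ∀ x ∈ T, Reach (↑F ∩ ↑(boxE (6 * r))) u x

theorem GB_loc {t a E : ℝ} {r : ℕ} {F : Finset Edg} : GB t a E r F ↔ GB t a E r (F ∩ boxE (6 * r)) := by
  unfold GB
  rw [coe_inter_eq (Finset.Subset.refl _)]

theorem pr_circ2 {r : ℕ} (hr : 1 ≤ r) {S : Finset Edg} (hS : boxE (6 * r) ⊆ S) :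
    (1 / 2 : ℝ) ^ 188 ≤ Pr P S (Circ (2 * r) (4 * r)) := by
  have hrz : (1 : ℤ) ≤ r := by exact_mod_cast hr
  refine le_trans ?_ (pr_Circ (q := 1 / 2) (by norm_num) (by norm_num) (R1 := 2 * r)
    (R2 := 4 * r) (by positivity) (by omega) (S := S) ?_)
  · have k := rsw_p (p := 1 / 2) le_rfl (by norm_num) (n := r) (w := 2 * (4 * (r : ℤ)))
      (h := 4 * (r : ℤ) - 2 * r) (by omega) (by omega) (by omega) (by omega)
    calc (1 / 2 : ℝ) ^ 188 = ((1 / 2 : ℝ) ^ 47) ^ 4 := by rw [← pow_mul]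
      _ ≤ _ := pow_le_pow_left₀ (by positivity) k 4
  · refine subset_trans ?_ hS
    unfold boxE
    exact RE_subset (by push_cast; omega) (by push_cast; omega) (by push_cast; omega)
      (by push_cast; omega)

theorem pr_tb {a b c d n : ℤ} (hn : 0 < n) (h1 : 0 < d - c) (h2 : d - c ≤ 8 * n)
    (h3 : 2 * n ≤ b - a) {S : Finset Edg} (hS : TBE a b c d ⊆ S) :
    (1 / 2 : ℝ) ^ 47 ≤ Pr P S (TBc a b c d) := by
  have := pr_TBc (1 / 2) hS
  unfold P
  rw [this]
  exact rsw_p (p := 1 / 2) le_rfl (by norm_num) (n := n) hn h1 h2 h3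

theorem pr_lr {a b c d n : ℤ} (hn : 0 < n) (h1 : 0 < b - a) (h2 : b - a ≤ 8 * n)
    (h3 : 2 * n ≤ d - c) {S : Finset Edg} (hS : LRE a b c d ⊆ S) :
    (1 / 2 : ℝ) ^ 47 ≤ Pr P S (LRc a b c d) := by
  have := pr_LRc (1 / 2) hS
  unfold P
  rw [this]
  exact rsw_p (p := 1 / 2) le_rfl (by norm_num) (n := n) hn h1 h2 h3

theorem circ_incr (S : Finset Edg) (R1 R2 : ℤ) : IncrE S (Circ R1 R2) :=
  fun _ _ h _ hF => hF.mono h

/-- **Good boxes at a wired line have positive probability.** -/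
theorem pr_GB (hAr : ArS) {t : ℝ} (ht1 : 1 ≤ t) (ht : t < 91 / 48) :
    ∃ p a E : ℝ, 0 < p ∧ 0 < a ∧ 0 < E ∧ ∀ r : ℕ, 1 ≤ r → ∀ S : Finset Edg, boxE (6 * r) ⊆ S →
      p ≤ Pr P S (GB t a E r) := by
  obtain ⟨p, a, E, hp, ha, hE, h⟩ := std_prob hAr ht1 ht
    (β := (1 / 2 : ℝ) ^ 188 * (1 / 2 : ℝ) ^ 47) (by positivity)
  refine ⟨p, a, E, hp, ha, hE, fun r hr S hS => ?_⟩
  have hrz : (1 : ℤ) ≤ r := by exact_mod_cast hr
  have hT : TBE (-(2 * (r : ℤ))) (2 * r) (-(6 * r)) (2 * r) ⊆ boxE (6 * r) := by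
    refine TBE_subset_RE.trans ?_
    unfold boxE
    exact RE_subset (by push_cast; omega) (by push_cast; omega) (by push_cast; omega)
      (by push_cast; omega)
  set B : Finset Edg → Prop := fun F =>
    Circ (2 * r) (4 * r) F ∧ TBc (-(2 * (r : ℤ))) (2 * r) (-(6 * r)) (2 * r) F with hB
  have hBi : IncrE S B := fun F G hFG _ hF => ⟨hF.1.mono hFG, hF.2.mono hFG⟩
  have hBp : (1 / 2 : ℝ) ^ 188 * (1 / 2 : ℝ) ^ 47 ≤ Pr P S B := by
    have i1 := Pr_harris w_ok (circ_incr S (2 * r) (4 * r))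
      (TBc_incr S (-(2 * (r : ℤ))) (2 * r) (-(6 * r)) (2 * r))
    refine le_trans ?_ i1
    exact mul_le_mul (pr_circ2 hr hS) (pr_tb (n := 2 * r) (by omega) (by omega) (by omega)
      (by omega) (hT.trans hS)) (by positivity) (Pr_nonneg w_ok _ _)
  refine (h r hr S hS B hBi hBp).trans (Pr_mono w_ok ?_)
  rintro F _ ⟨⟨hc, x, x', hx, hx', hR⟩, hG⟩
  obtain ⟨z, hz1, hz2⟩ := glueT hr hc
  have hR' : Reach (↑F ∩ ↑(boxE (6 * r))) (x, -(6 * (r : ℤ))) (x', 2 * (r : ℤ)) :=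
    hR.mono (Set.inter_subset_inter_right _ (by exact_mod_cast hT))
  have h1 := hz2 (x', 2 * (r : ℤ)) (x, -(6 * (r : ℤ))) (by unfold inR; simp only; omega)
    (by simp only; omega) hR'.symm
  exact ⟨FT r F, hG, fun y hy => (mem_FT.mp hy).1, (x, -(6 * (r : ℤ))), rfl, hx.1, hx.2,
    fun y hy => (hR'.trans h1).trans (hz1 y hy).symm⟩

/-- A lattice symmetry which preserves the sup distance. -/
def Iso (g : LSym) : Prop := ∀ x y : Vtx, nv (g.ψ x - g.ψ y) = nv (x - y)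

/-- `n` disjoint boxes. -/
theorem pr_none_GB {t a E p : ℝ} {r : ℕ}
    (h : ∀ S : Finset Edg, boxE (6 * r) ⊆ S → p ≤ Pr P S (GB t a E r)) (g : ℕ → LSym)
    {S : Finset Edg} (n : ℕ) (hg : ∀ j < n, ∀ e, (g j).φ e ∈ boxE (6 * r) → e ∈ S)
    (hd : ∀ i j, i < j → j < n → ∀ e, (g i).φ e ∈ boxE (6 * r) → (g j).φ e ∈ boxE (6 * r) → False) :
    Pr P S (fun F => ∀ j < n, ¬ GB t a E r ((g j).mp F)) ≤ (1 - p) ^ n := by
  have hp1 : p ≤ 1 := (h _ (Finset.Subset.refl _)).trans (Pr_le_one w_ok _ _)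
  set V : ℕ → Finset Edg := fun j => (g j).inv.mp (boxE (6 * r)) with hV
  have memV : ∀ j e, e ∈ V j ↔ (g j).φ e ∈ boxE (6 * r) := by
    intro j e
    rw [hV]
    simp only [LSym.mem_mp]
    rfl
  have back : ∀ j, (g j).mp (V j) = boxE (6 * r) := by
    intro j
    ext e
    rw [LSym.mem_mp, memV]
    simp
  have one : ∀ j, Pr P (V j) (fun F => ¬ GB t a E r ((g j).mp F)) ≤ 1 - p := by
    intro j
    have e1 : Pr P ((g j).mp (V j)) (fun F => ¬ GB t a E r F) =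
        Pr P (V j) (fun F => ¬ GB t a E r ((g j).mp F)) := LSym.pr (g j) (1 / 2) (V j) _
    rw [← e1, back, Pr_not]
    linarith [h _ (Finset.Subset.refl _)]
  have loc : ∀ j F, GB t a E r ((g j).mp F) ↔ GB t a E r ((g j).mp (F ∩ V j)) := by
    intro j F
    rw [LSym.mp_inter, back]
    exact GB_loc
  induction n with
  | zero =>
    rw [pow_zero]
    exact Pr_le_one w_ok _ _
  | succ n ih =>
    have ih' := ih (fun j hj => hg j (by omega)) (fun i j hij hj => hd i j hij (by omega))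
    have e : Pr P S (fun F => ∀ j < n + 1, ¬ GB t a E r ((g j).mp F))
        = Pr P S (fun F => (∀ j < n, ¬ GB t a E r ((g j).mp F)) ∧ ¬ GB t a E r ((g n).mp F)) := by
      apply Pr_congr
      intro F _
      constructor
      · intro h
        exact ⟨fun j hj => h j (by omega), h n (by omega)⟩
      · rintro ⟨h1, h2⟩ j hj
        rcases Nat.lt_succ_iff_lt_or_eq.mp hj with h | h
        · exact h1 j h
        · rw [h]; exact h2
    have hVS : ∀ j < n + 1, V j ⊆ S := fun j hj e he => hg j hj e ((memV j e).mp he)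
    rw [e, Pr_indep (S := (Finset.range n).biUnion V) (T := V n), pow_succ]
    · have e2 : Pr P S (fun F => ¬ GB t a E r ((g n).mp F)) =
          Pr P (V n) (fun F => ¬ GB t a E r ((g n).mp F)) :=
        Pr_local (hVS n (by omega)) (fun F _ => not_congr (loc n F))
      rw [e2]
      exact mul_le_mul ih' (one n) (Pr_nonneg w_ok _ _) (pow_nonneg (by linarith) _)
    · intro e he
      rw [Finset.mem_biUnion] at he
      obtain ⟨j, hj, he⟩ := he
      exact hVS j (by have := Finset.mem_range.mp hj; omega) he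
    · exact hVS n (by omega)
    · rw [Finset.disjoint_biUnion_left]
      intro j hj
      rw [Finset.disjoint_left]
      intro e h1 h2
      exact hd j n (Finset.mem_range.mp hj) (by omega) e ((memV j e).mp h1) ((memV n e).mp h2)
    · intro F _
      have : ∀ j < n, (GB t a E r ((g j).mp F) ↔
          GB t a E r ((g j).mp (F ∩ (Finset.range n).biUnion V))) := by
        intro j hj
        rw [loc, loc j (F ∩ (Finset.range n).biUnion V)]
        have : F ∩ (Finset.range n).biUnion V ∩ V j = F ∩ V j := by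
          rw [Finset.inter_assoc]
          congr 1
          rw [Finset.inter_eq_right]
          exact Finset.subset_biUnion_of_mem V (Finset.mem_range.mpr hj)
        rw [this]
      constructor
      · intro h j hj h2
        exact h j hj ((this j hj).mpr h2)
      · intro h j hj h2
        exact h j hj ((this j hj).mp h2)
    · intro F _
      exact not_congr (loc n F)

end Pool.Agent.H389R2.CD
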