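import Pool.Agent.H389R2.CD.Low

/-!
# The cluster of the wired arc: dimension exactly `91 / 48` in every subsequential limit
-/

set_option autoImplicit false
set_option maxHeartbeats 1000000
set_option linter.unusedSimpArgs false

namespace Pool.Agent.H389R2.CD

open H974 H934E Pool.Agent.H160R2.CV MeasureTheory TopologicalSpace Filter Topology Metric Set
open Pool.Agent.H389R2.Dim
open scoped ENNReal NNReal

/-! ### General facts on limits of laws -/

/-- Relative compactness. -/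
theorem precompact {S : ℕ → Finset Edg} {K : ℕ → Finset Edg → NonemptyCompacts ℂ} {B : Set ℂ}
    (hB : IsCompact B) {N : ℕ} (h : ∀ i ≥ N, ∀ F ⊆ S i, (K i F : Set ℂ) ⊆ B) :
    ∃ φ : ℕ → ℕ, StrictMono φ ∧ ∃ μ : ProbabilityMeasure (NonemptyCompacts ℂ),
      Tendsto (fun i => lawP (S (φ i)) (K (φ i))) atTop (𝓝 μ) := by
  set T : Set (ProbabilityMeasure (NonemptyCompacts ℂ)) :=
    Set.range (fun i => lawP (S (i + N)) (K (i + N))) with hT
  have htight : IsTightMeasureSet {((ν : ProbabilityMeasure (NonemptyCompacts ℂ)) :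
      Measure (NonemptyCompacts ℂ)) | ν ∈ T} := by
    rw [isTightMeasureSet_iff_exists_isCompact_measure_compl_le]
    intro ε _
    have hK := NonemptyCompacts.isCompact_subsets_of_isCompact hB
    refine ⟨_, hK, ?_⟩
    rintro ν ⟨ν', ⟨i, rfl⟩, rfl⟩
    rw [lawP_apply _ _ hK.isClosed.measurableSet.compl]
    have h0 : Pr P (S (i + N)) (fun F => K (i + N) F ∈
        {K : NonemptyCompacts ℂ | (K : Set ℂ) ⊆ B}ᶜ) = 0 := by
      have : Pr P (S (i + N)) (fun F => K (i + N) F ∈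
        {K : NonemptyCompacts ℂ | (K : Set ℂ) ⊆ B}ᶜ) = Pr P (S (i + N)) (fun _ => False) := by
        apply Pr_congr
        intro F hF
        rw [iff_false]
        intro h2
        exact h2 (h (i + N) (by omega) F hF)
      rw [this]
      unfold Pr
      have : (fun F : Finset Edg => ind False) = fun _ => (0:ℝ) := by
        funext F; exact ind_not_of (fun h => h)
      rw [this, Ex_const]
    rw [h0, ENNReal.ofReal_zero]
    exact bot_le
  have hcomp := isCompact_closure_of_isTightMeasureSet htight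
  obtain ⟨μ, _, φ, hφ, hμ⟩ := hcomp.tendsto_subseq
    (x := fun i => lawP (S (i + N)) (K (i + N))) (fun i => subset_closure ⟨i, rfl⟩)
  exact ⟨fun i => φ i + N, fun i j h => by simpa using hφ h, μ, hμ⟩

section

variable {S : ℕ → Finset Edg} {K : ℕ → Finset Edg → NonemptyCompacts ℂ}
  {μ : ProbabilityMeasure (NonemptyCompacts ℂ)}
  (hμ : Tendsto (fun i => lawP (S i) (K i)) atTop (𝓝 μ))

include hμ

theorem lim_open_le {G : Set (NonemptyCompacts ℂ)} (hG : IsOpen G) {q : ℝ}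
    (h : ∀ᶠ i in atTop, Pr P (S i) (fun F => K i F ∈ G) ≤ q) :
    (μ : Measure (NonemptyCompacts ℂ)) G ≤ ENNReal.ofReal q := by
  refine (ProbabilityMeasure.le_liminf_measure_open_of_tendsto hμ hG).trans ?_
  apply Filter.liminf_le_of_frequently_le'
  apply Eventually.frequently
  filter_upwards [h] with i hi
  rw [lawP_apply _ _ hG.measurableSet]
  exact ENNReal.ofReal_le_ofReal hi

theorem lim_closed_ge {G : Set (NonemptyCompacts ℂ)} (hG : IsClosed G) {q : ℝ}
    (h : ∀ᶠ i in atTop, q ≤ Pr P (S i) (fun F => K i F ∈ G)) :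
    ENNReal.ofReal q ≤ (μ : Measure (NonemptyCompacts ℂ)) G := by
  refine le_trans ?_ (ProbabilityMeasure.limsup_measure_closed_le_of_tendsto hμ hG)
  apply Filter.le_limsup_of_frequently_le'
  apply Eventually.frequently
  filter_upwards [h] with i hi
  rw [lawP_apply _ _ hG.measurableSet]
  exact ENNReal.ofReal_le_ofReal hi

/-- The limit is contained in a closed set which contains all sets of the sequence. -/
theorem lim_subset {B : Set ℂ} (hB : IsClosed B)
    (h : ∀ᶠ i in atTop, ∀ F ⊆ S i, (K i F : Set ℂ) ⊆ B) :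
    ∀ᵐ L : NonemptyCompacts ℂ ∂(μ : Measure (NonemptyCompacts ℂ)), (L : Set ℂ) ⊆ B := by
  have hG : IsOpen {L : NonemptyCompacts ℂ | ((L : Set ℂ) ∩ Bᶜ).Nonempty} :=
    NonemptyCompacts.isOpen_inter_nonempty_of_isOpen hB.isOpen_compl
  have h1 := lim_open_le hμ hG (q := 0) (by
    filter_upwards [h] with i hi
    have : Pr P (S i) (fun F => K i F ∈ {L : NonemptyCompacts ℂ | ((L : Set ℂ) ∩ Bᶜ).Nonempty}) =
        Pr P (S i) (fun _ => False) := by
      apply Pr_congr
      intro F hF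
      rw [iff_false]
      rintro ⟨x, hx1, hx2⟩
      exact hx2 (hi F hF hx1)
    refine le_of_eq (Eq.trans this ?_)
    unfold Pr
    have h0 : (fun F : Finset Edg => ind False) = fun _ => (0:ℝ) := by
      funext F; exact ind_not_of (fun h => h)
    rw [h0, Ex_const])
  rw [ENNReal.ofReal_zero] at h1
  rw [ae_iff]
  refine le_antisymm (le_trans (measure_mono ?_) h1) bot_le
  intro L hL
  rw [Set.mem_ofPred_eq, Set.not_subset] at hL
  obtain ⟨x, hx1, hx2⟩ := hL
  exact ⟨x, hx1, hx2⟩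

end

/-! ### Lines -/

theorem dimH_vline (c : ℝ) : dimH {z : ℂ | z.re = c} ≤ 1 := by
  have h1 : LipschitzWith 1 (fun y : ℝ => (⟨c, y⟩ : ℂ)) := by
    apply LipschitzWith.of_dist_le_mul
    intro x y
    rw [Complex.dist_eq, Real.dist_eq, NNReal.coe_one, one_mul]
    refine (Complex.norm_le_abs_re_add_abs_im _).trans ?_
    simp
  have h2 : {z : ℂ | z.re = c} ⊆ (fun y : ℝ => (⟨c, y⟩ : ℂ)) '' univ := by
    intro z hz
    exact ⟨z.im, Set.mem_univ _, by apply Complex.ext; exacts [hz.symm, rfl]⟩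
  refine (dimH_mono h2).trans ((h1.dimH_image_le univ).trans ?_)
  rw [Real.dimH_univ]

theorem dimH_hline (c : ℝ) : dimH {z : ℂ | z.im = c} ≤ 1 := by
  have h1 : LipschitzWith 1 (fun y : ℝ => (⟨y, c⟩ : ℂ)) := by
    apply LipschitzWith.of_dist_le_mul
    intro x y
    rw [Complex.dist_eq, Real.dist_eq, NNReal.coe_one, one_mul]
    refine (Complex.norm_le_abs_re_add_abs_im _).trans ?_
    simp
  have h2 : {z : ℂ | z.im = c} ⊆ (fun y : ℝ => (⟨y, c⟩ : ℂ)) '' univ := by
    intro z hz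
    exact ⟨z.re, Set.mem_univ _, by apply Complex.ext; exacts [rfl, hz.symm]⟩
  refine (dimH_mono h2).trans ((h1.dimH_image_le univ).trans ?_)
  rw [Real.dimH_univ]

/-! ### The rectangle -/

/-- The closed rectangle. -/
def cRect (R : Rect) : Set ℂ := {z | (-R.A ≤ z.re ∧ z.re ≤ R.B) ∧ (0 ≤ z.im ∧ z.im ≤ R.H)}

theorem isClosed_cRect (R : Rect) : IsClosed (cRect R) := by
  unfold cRect
  exact ((isClosed_le continuous_const Complex.continuous_re).inter
    (isClosed_le Complex.continuous_re continuous_const)).inter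
    ((isClosed_le continuous_const Complex.continuous_im).inter
    (isClosed_le Complex.continuous_im continuous_const))

theorem isCompact_cRect (R : Rect) : IsCompact (cRect R) := by
  apply Metric.isCompact_of_isClosed_isBounded (isClosed_cRect R)
  rw [isBounded_iff_forall_norm_le]
  refine ⟨(R.A + R.B) + R.H, ?_⟩
  rintro z ⟨⟨h1, h2⟩, h3, h4⟩
  have hA := R.hA
  have hB := R.hB
  refine (Complex.norm_le_abs_re_add_abs_im z).trans (add_le_add ?_ ?_)
  · rw [abs_le]; constructor <;> linarith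
  · rw [abs_le]; constructor <;> linarith

theorem cset_cRect (R : Rect) {δ : ℝ} (hδ : 0 < δ) (h1 : 4 * δ < R.L0) {F : Finset Edg}
    (hF : F ⊆ R.edges δ) : cset R δ F ⊆ cRect R := by
  obtain ⟨g1, g2, g3, g4⟩ := R.small_geom hδ h1
  have hv : ∀ v : Vtx, v ∈ R.clu δ F → pt δ v ∈ cRect R := by
    intro v hv
    have h3 := (R.mem_verts hδ).mp (R.clu_verts g1 g2 g3 g4 hF hv)
    unfold Rect.D at h3
    obtain ⟨a1, a2, a3, a4⟩ := h3
    exact ⟨⟨a1.le, a2.le⟩, a3.le, a4.le⟩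
  have hconv : Convex ℝ (cRect R) := by
    have e : cRect R = ({z : ℂ | -R.A ≤ z.re} ∩ {z : ℂ | z.re ≤ R.B}) ∩
        ({z : ℂ | 0 ≤ z.im} ∩ {z : ℂ | z.im ≤ R.H}) := by
      ext z; rfl
    rw [e]
    exact ((convex_halfSpace_re_ge _).inter (convex_halfSpace_re_le _)).inter
      ((convex_halfSpace_im_ge _).inter (convex_halfSpace_im_le _))
  rintro z (⟨v, hv', rfl⟩ | hz)
  · exact hv v hv'
  · rw [Set.mem_iUnion₂] at hz
    obtain ⟨e, ⟨he1, he2⟩, hz2⟩ := hz
    have he3 : tgt e ∈ R.clu δ F := Reach.trans he2 (Adj.reach ⟨e, he1, Or.inl ⟨rfl, rfl⟩⟩)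
    exact hconv.segment_subset (hv _ he2) (hv _ he3) hz2

theorem clus_precompact (R : Rect) {δ : ℕ → ℝ} (hδ : ∀ i, 0 < δ i)
    (hlim : Tendsto δ atTop (𝓝 0)) :
    ∃ φ : ℕ → ℕ, StrictMono φ ∧ ∃ μ : ProbabilityMeasure (NonemptyCompacts ℂ),
      Tendsto (fun i => clusLaw R (δ (φ i))) atTop (𝓝 μ) := by
  obtain ⟨N, hN⟩ := eventually_atTop.mp
    (hlim.eventually_lt_const (div_pos R.L0_pos (by norm_num : (0:ℝ) < 4)))
  exact precompact (S := fun i => R.edges (δ i)) (K := fun i => clus R (δ i))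
    (isCompact_cRect R) (N := N) (fun i hi F hF =>
      cset_cRect R (hδ i) (by have := hN i hi; linarith) hF)

section

variable (hAr : ArS) (R : Rect) {δ : ℕ → ℝ} (hδ : ∀ i, 0 < δ i) (hlim : Tendsto δ atTop (𝓝 0))
  {μ : ProbabilityMeasure (NonemptyCompacts ℂ)}
  (hμ : Tendsto (fun i => clusLaw R (δ i)) atTop (𝓝 μ))

include hδ hlim hμ

theorem clus_sub : ∀ᵐ K : NonemptyCompacts ℂ ∂(μ : Measure (NonemptyCompacts ℂ)),
    (K : Set ℂ) ⊆ cRect R := by
  apply lim_subset (S := fun i => R.edges (δ i)) (K := fun i => clus R (δ i)) hμ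
    (isClosed_cRect R)
  filter_upwards [hlim.eventually_lt_const (div_pos R.L0_pos (by norm_num : (0:ℝ) < 4))] with i hi
  intro F hF
  exact cset_cRect R (hδ i) (by linarith) hF

include hAr

/-- The dimension is at most `91 / 48`. -/
theorem clus_upper : ∀ᵐ K : NonemptyCompacts ℂ ∂(μ : Measure (NonemptyCompacts ℂ)),
    dimH (K : Set ℂ) ≤ ENNReal.ofReal (91 / 48) := by
  obtain ⟨C, hC, hH⟩ := hit_le hAr
  set A : ℕ → Set ℂ := fun m => {z | (-R.A + 1 / ((m : ℝ) + 1) ≤ z.re ∧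
    z.re ≤ R.B - 1 / ((m : ℝ) + 1)) ∧ (1 / ((m : ℝ) + 1) ≤ z.im ∧
    z.im ≤ R.H - 1 / ((m : ℝ) + 1))} with hA
  have key : ∀ m : ℕ, ∀ᵐ K : NonemptyCompacts ℂ ∂(μ : Measure (NonemptyCompacts ℂ)),
      dimH ((K : Set ℂ) ∩ A m) ≤ ENNReal.ofReal (91 / 48) := by
    intro m
    set ρ : ℝ := 1 / ((m : ℝ) + 1) with hρ
    have hρ0 : 0 < ρ := by positivity
    have hA0 := R.hA
    have hB0 := R.hB
    have hH0 := R.hH
    refine upper_sq hμ (A := A m) (M := R.A + R.B + R.H) (by positivity) ?_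
      (C := C * (2 / ρ) ^ ((5 : ℝ) / 48)) (s0 := ρ / 32) (by positivity) (by positivity) ?_
    · rintro z ⟨⟨h1, h2⟩, h3, h4⟩
      rw [abs_le, abs_le]
      refine ⟨⟨by linarith, by linarith⟩, ⟨by linarith, by linarith⟩⟩
    · rintro z s hs hs0 ⟨w, ⟨hw1, hw2⟩, ⟨hw3, hw4⟩, hw5, hw6⟩
      apply Eventually.frequently
      filter_upwards [hlim.eventually_lt_const (show (0 : ℝ) < s / 16 by positivity)] with i hi
      have hopen : IsOpen {K : NonemptyCompacts ℂ | ((K : Set ℂ) ∩ sq z s).Nonempty} :=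
        NonemptyCompacts.isOpen_inter_nonempty_of_isOpen (isOpen_sq z s)
      rw [clusLaw_apply R (δ i) hopen.measurableSet]
      apply ENNReal.ofReal_le_ofReal
      rw [abs_lt] at hw1 hw2
      have h5 := hH R z (ρ / 2) s (δ i) hs (by linarith) (by linarith) (by linarith)
        (by linarith) (by linarith) (hδ i) (by linarith)
      refine h5.trans (le_of_eq ?_)
      rw [mul_assoc, ← Real.mul_rpow (by positivity) hs.le]
      congr 2
      field_simp
  filter_upwards [clus_sub R hδ hlim hμ, ae_all_iff.mpr key] with K hK1 hK2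
  have hsub : (K : Set ℂ) ⊆ (⋃ m : ℕ, (K : Set ℂ) ∩ A m) ∪
      (({z : ℂ | z.re = -R.A} ∪ {z : ℂ | z.re = R.B}) ∪ ({z : ℂ | z.im = 0} ∪ {z : ℂ | z.im = R.H})) := by
    intro z hz
    obtain ⟨⟨h1, h2⟩, h3, h4⟩ := hK1 hz
    rcases eq_or_lt_of_le h1 with e1 | e1
    · right; left; left; exact e1.symm
    rcases eq_or_lt_of_le h2 with e2 | e2
    · right; left; right; exact e2
    rcases eq_or_lt_of_le h3 with e3 | e3
    · right; right; left; exact e3.symm
    rcases eq_or_lt_of_le h4 with e4 | e4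
    · right; right; right; exact e4
    left
    rw [Set.mem_iUnion]
    obtain ⟨m, hm⟩ := exists_nat_one_div_lt (lt_min (lt_min (sub_pos.mpr e1) (sub_pos.mpr e2))
      (lt_min e3 (sub_pos.mpr e4)))
    simp only [lt_min_iff] at hm
    obtain ⟨⟨m1, m2⟩, m3, m4⟩ := hm
    exact ⟨m, hz, ⟨by linarith, by linarith⟩, by linarith, by linarith⟩
  have h1le : (1 : ℝ≥0∞) ≤ ENNReal.ofReal (91 / 48) := by
    rw [← ENNReal.ofReal_one]
    exact ENNReal.ofReal_le_ofReal (by norm_num)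
  refine (dimH_mono hsub).trans ?_
  rw [dimH_union, dimH_union, dimH_union, dimH_union, dimH_iUnion]
  refine max_le (iSup_le hK2) (max_le (max_le ?_ ?_) (max_le ?_ ?_))
  · exact (dimH_vline _).trans h1le
  · exact (dimH_vline _).trans h1le
  · exact (dimH_hline _).trans h1le
  · exact (dimH_hline _).trans h1le

end

/-- The counterclockwise closed boundary arc from `a = t + i H` to `b = 0`. -/
def arc (R : Rect) : Set ℂ := {z | (z.im = R.H ∧ -R.A ≤ z.re ∧ z.re ≤ R.t) ∨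
  (z.re = -R.A ∧ 0 ≤ z.im ∧ z.im ≤ R.H) ∨ (z.im = 0 ∧ -R.A ≤ z.re ∧ z.re ≤ 0)}

theorem csq_sub_ball {z w : ℂ} {s ε : ℝ} (h : |z.re - w.re| + |z.im - w.im| + 2 * s < ε) :
    csq z s ⊆ ball w ε := by
  rintro y ⟨h1, h2⟩
  rw [mem_ball, Complex.dist_eq]
  refine lt_of_le_of_lt (Complex.norm_le_abs_re_add_abs_im _) ?_
  rw [Complex.sub_re, Complex.sub_im]
  have e1 : |y.re - w.re| ≤ |y.re - z.re| + |z.re - w.re| := abs_sub_le _ _ _
  have e2 : |y.im - w.im| ≤ |y.im - z.im| + |z.im - w.im| := abs_sub_le _ _ _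
  linarith

/-- a rational point in an interval close to a given point of the closed interval, with room -/
theorem exists_rat_room {a b x ε M : ℝ} (hab : a < b) (h1 : a ≤ x) (h2 : x ≤ b) (hε : 0 < ε)
    (hM : 0 < M) : ∃ (q : ℚ) (m : ℕ), a < q - 1 / ((m : ℝ) + 1) ∧ (q : ℝ) + 1 / ((m : ℝ) + 1) < b ∧
      |(q : ℝ) - x| < ε ∧ 1 / ((m : ℝ) + 1) < M := by
  have hlt : max a (x - ε) < min b (x + ε) := by
    rw [max_lt_iff, lt_min_iff, lt_min_iff]
    refine ⟨⟨hab, by linarith⟩, by linarith, by linarith⟩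
  obtain ⟨q, hq1, hq2⟩ := exists_rat_btwn hlt
  rw [max_lt_iff] at hq1
  rw [lt_min_iff] at hq2
  obtain ⟨m, hm⟩ := exists_nat_one_div_lt (lt_min (lt_min (sub_pos.mpr hq1.1) (sub_pos.mpr hq2.1)) hM)
  simp only [lt_min_iff] at hm
  refine ⟨q, m, by linarith [hm.1.1], by linarith [hm.1.2], ?_, hm.2⟩
  rw [abs_lt]
  constructor <;> linarith [hq1.2, hq2.2]

section

variable (hAr : ArS) (R : Rect) {δ : ℕ → ℝ} (hδ : ∀ i, 0 < δ i) (hlim : Tendsto δ atTop (𝓝 0))
  {μ : ProbabilityMeasure (NonemptyCompacts ℂ)}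
  (hμ : Tendsto (fun i => clusLaw R (δ i)) atTop (𝓝 μ))

include hAr hδ hlim hμ

/-- The dimension near the points of the arc is at least `91 / 48`. -/
theorem clus_lower : ∀ᵐ K : NonemptyCompacts ℂ ∂(μ : Measure (NonemptyCompacts ℂ)),
    ∀ w ∈ arc R, ∀ ε : ℝ, 0 < ε → ENNReal.ofReal (91 / 48) ≤ dimH ((K : Set ℂ) ∩ ball w ε) := by
  have hA := R.hA
  have hH := R.hH
  have hbot : ∀ (q : ℚ) (m : ℕ), ∀ᵐ K : NonemptyCompacts ℂ ∂(μ : Measure (NonemptyCompacts ℂ)),
      -R.A < q - 1 / ((m : ℝ) + 1) → (q : ℝ) + 1 / ((m : ℝ) + 1) < 0 →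
      3 * (1 / ((m : ℝ) + 1)) ≤ R.H →
      ENNReal.ofReal (91 / 48) ≤ dimH ((K : Set ℂ) ∩ csq ((q : ℝ) : ℂ) (3 * (1 / ((m : ℝ) + 1)))) := by
    intro q m
    by_cases h1 : -R.A < q - 1 / ((m : ℝ) + 1)
    · by_cases h2 : (q : ℝ) + 1 / ((m : ℝ) + 1) < 0
      · by_cases h3 : 3 * (1 / ((m : ℝ) + 1)) ≤ R.H
        · filter_upwards [lower_bottom hAr R hδ hlim hμ q (1 / ((m : ℝ) + 1)) (by positivity) h1
            h2 h3] with K hK _ _ _
          exact hK
        · exact Eventually.of_forall fun K _ _ h => absurd h h3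
      · exact Eventually.of_forall fun K _ h => absurd h h2
    · exact Eventually.of_forall fun K h => absurd h h1
  have hleft : ∀ (q : ℚ) (m : ℕ), ∀ᵐ K : NonemptyCompacts ℂ ∂(μ : Measure (NonemptyCompacts ℂ)),
      0 < q - 1 / ((m : ℝ) + 1) → (q : ℝ) + 1 / ((m : ℝ) + 1) < R.H →
      3 * (1 / ((m : ℝ) + 1)) ≤ R.A →
      ENNReal.ofReal (91 / 48) ≤
        dimH ((K : Set ℂ) ∩ csq (⟨-R.A, (q : ℝ)⟩ : ℂ) (3 * (1 / ((m : ℝ) + 1)))) := by
    intro q m
    by_cases h1 : 0 < q - 1 / ((m : ℝ) + 1)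
    · by_cases h2 : (q : ℝ) + 1 / ((m : ℝ) + 1) < R.H
      · by_cases h3 : 3 * (1 / ((m : ℝ) + 1)) ≤ R.A
        · filter_upwards [lower_left hAr R hδ hlim hμ q (1 / ((m : ℝ) + 1)) (by positivity) h1
            h2 h3] with K hK _ _ _
          exact hK
        · exact Eventually.of_forall fun K _ _ h => absurd h h3
      · exact Eventually.of_forall fun K _ h => absurd h h2
    · exact Eventually.of_forall fun K h => absurd h h1
  have htop : ∀ (q : ℚ) (m : ℕ), ∀ᵐ K : NonemptyCompacts ℂ ∂(μ : Measure (NonemptyCompacts ℂ)),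
      -R.A < q - 1 / ((m : ℝ) + 1) → (q : ℝ) + 1 / ((m : ℝ) + 1) < R.t →
      3 * (1 / ((m : ℝ) + 1)) ≤ R.H →
      ENNReal.ofReal (91 / 48) ≤
        dimH ((K : Set ℂ) ∩ csq (⟨(q : ℝ), R.H⟩ : ℂ) (3 * (1 / ((m : ℝ) + 1)))) := by
    intro q m
    by_cases h1 : -R.A < q - 1 / ((m : ℝ) + 1)
    · by_cases h2 : (q : ℝ) + 1 / ((m : ℝ) + 1) < R.t
      · by_cases h3 : 3 * (1 / ((m : ℝ) + 1)) ≤ R.H
        · filter_upwards [lower_top hAr R hδ hlim hμ q (1 / ((m : ℝ) + 1)) (by positivity) h1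
            h2 h3] with K hK _ _ _
          exact hK
        · exact Eventually.of_forall fun K _ _ h => absurd h h3
      · exact Eventually.of_forall fun K _ h => absurd h h2
    · exact Eventually.of_forall fun K h => absurd h h1
  filter_upwards [ae_all_iff.mpr (fun q => ae_all_iff.mpr (hbot q)),
    ae_all_iff.mpr (fun q => ae_all_iff.mpr (hleft q)),
    ae_all_iff.mpr (fun q => ae_all_iff.mpr (htop q))] with K k1 k2 k3
  intro w hw ε hε
  rcases hw with ⟨h1, h2, h3⟩ | ⟨h1, h2, h3⟩ | ⟨h1, h2, h3⟩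
  · obtain ⟨q, m, q1, q2, q3, q4⟩ := exists_rat_room (M := min (R.H / 3) (ε / 12)) R.ht1 h2 h3
      (show 0 < ε / 2 by positivity) (lt_min (by positivity) (by positivity))
    rw [lt_min_iff] at q4
    refine (k3 q m q1 q2 (by linarith [q4.1])).trans
      (dimH_mono (Set.inter_subset_inter_right _ (csq_sub_ball ?_)))
    simp only [h1, sub_self, abs_zero, add_zero]
    linarith [q4.2]
  · obtain ⟨q, m, q1, q2, q3, q4⟩ := exists_rat_room (M := min (R.A / 3) (ε / 12)) hH h2 h3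
      (show 0 < ε / 2 by positivity) (lt_min (by positivity) (by positivity))
    rw [lt_min_iff] at q4
    refine (k2 q m q1 q2 (by linarith [q4.1])).trans
      (dimH_mono (Set.inter_subset_inter_right _ (csq_sub_ball ?_)))
    simp only [h1, sub_self, abs_zero, zero_add]
    linarith [q4.2]
  · obtain ⟨q, m, q1, q2, q3, q4⟩ := exists_rat_room (M := min (R.H / 3) (ε / 12))
      (neg_lt_zero.mpr hA) h2 h3
      (show 0 < ε / 2 by positivity) (lt_min (by positivity) (by positivity))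
    rw [lt_min_iff] at q4
    refine (k1 q m q1 q2 (by linarith [q4.1])).trans
      (dimH_mono (Set.inter_subset_inter_right _ (csq_sub_ball ?_)))
    simp only [Complex.ofReal_re, Complex.ofReal_im, h1, sub_self, abs_zero, add_zero]
    linarith [q4.2]

end

/-- One-point upper bound in the limit. -/
theorem one_point_upper (hAr : ArS) : ∃ C : ℝ, 0 < C ∧ ∀ (R : Rect) (δ : ℕ → ℝ), (∀ i, 0 < δ i) →
    Tendsto δ atTop (𝓝 0) → ∀ μ : ProbabilityMeasure (NonemptyCompacts ℂ),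
    Tendsto (fun i => clusLaw R (δ i)) atTop (𝓝 μ) → ∀ (z : ℂ) (s ρ : ℝ), 0 < s → s ≤ ρ →
    ball z ρ ⊆ R.D → (μ : Measure (NonemptyCompacts ℂ)).real
      {K | ((K : Set ℂ) ∩ closedBall z s).Nonempty} ≤ C * (s / ρ) ^ ((5 : ℝ) / 48) := by
  obtain ⟨C, hC, hH⟩ := hit_le hAr
  refine ⟨C * 4 + 64, by positivity, ?_⟩
  intro R δ hδ hlim μ hμ z s ρ hs hsρ hD
  have hρ : 0 < ρ := by linarith
  have hx : 0 ≤ (s / ρ) ^ ((5 : ℝ) / 48) := by positivity
  by_cases h64 : 64 * s ≤ ρ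
  · have hopen : IsOpen {K : NonemptyCompacts ℂ | ((K : Set ℂ) ∩ sq z (2 * s)).Nonempty} :=
      NonemptyCompacts.isOpen_inter_nonempty_of_isOpen (isOpen_sq z _)
    have mem : ∀ u : ℂ, ‖u‖ < ρ → z + u ∈ R.D := by
      intro u hu
      apply hD
      rw [mem_ball, Complex.dist_eq]
      simpa using hu
    have m1 := mem ((-(ρ / 2) : ℝ) : ℂ) (by
      rw [Complex.norm_real, Real.norm_eq_abs, abs_neg, abs_of_pos (by positivity)]; linarith)
    have m2 := mem ((ρ / 2 : ℝ) : ℂ) (by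
      rw [Complex.norm_real, Real.norm_eq_abs, abs_of_pos (by positivity)]; linarith)
    have m3 := mem (((-(ρ / 2) : ℝ) : ℂ) * Complex.I) (by
      rw [norm_mul, Complex.norm_I, mul_one, Complex.norm_real, Real.norm_eq_abs, abs_neg,
        abs_of_pos (by positivity)]; linarith)
    have m4 := mem (((ρ / 2 : ℝ) : ℂ) * Complex.I) (by
      rw [norm_mul, Complex.norm_I, mul_one, Complex.norm_real, Real.norm_eq_abs,
        abs_of_pos (by positivity)]; linarith)
    unfold Rect.D at m1 m2 m3 m4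
    simp only [Set.mem_ofPred_eq, Complex.add_re, Complex.add_im, Complex.ofReal_re,
      Complex.ofReal_im, Complex.mul_re, Complex.mul_im, Complex.I_re, Complex.I_im] at m1 m2 m3 m4
    have h1 := lim_open_le (S := fun i => R.edges (δ i)) (K := fun i => clus R (δ i)) hμ hopen
      (q := C * (2 * s / (ρ / 2)) ^ ((5 : ℝ) / 48)) (by
        filter_upwards [hlim.eventually_lt_const (show (0 : ℝ) < s / 8 by positivity)] with i hi
        exact hH R z (ρ / 2) (2 * s) (δ i) (by positivity) (by linarith) (by linarith [m1.1])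
          (by linarith [m3.2.2.1]) (by linarith [m4.2.2.2]) (by linarith [m2.2.1]) (hδ i)
          (by linarith))
    have h2 : {K : NonemptyCompacts ℂ | ((K : Set ℂ) ∩ closedBall z s).Nonempty} ⊆
        {K : NonemptyCompacts ℂ | ((K : Set ℂ) ∩ sq z (2 * s)).Nonempty} := by
      rintro K ⟨w, hw1, hw2⟩
      refine ⟨w, hw1, ?_⟩
      rw [mem_closedBall, Complex.dist_eq] at hw2
      have a1 := Complex.abs_re_le_norm (w - z)
      have a2 := Complex.abs_im_le_norm (w - z)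
      rw [Complex.sub_re] at a1
      rw [Complex.sub_im] at a2
      exact ⟨by linarith, by linarith⟩
    have h3 : (μ : Measure (NonemptyCompacts ℂ)).real
        {K | ((K : Set ℂ) ∩ closedBall z s).Nonempty} ≤ C * (2 * s / (ρ / 2)) ^ ((5 : ℝ) / 48) :=
      ENNReal.toReal_le_of_le_ofReal (by positivity) ((measure_mono h2).trans h1)
    refine h3.trans ?_
    have e1 : 2 * s / (ρ / 2) = 4 * (s / ρ) := by field_simp; norm_num
    rw [e1, Real.mul_rpow (by norm_num) (by positivity)]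
    have e2 : (4 : ℝ) ^ ((5 : ℝ) / 48) ≤ 4 := by
      calc (4 : ℝ) ^ ((5 : ℝ) / 48) ≤ 4 ^ (1 : ℝ) :=
            Real.rpow_le_rpow_of_exponent_le (by norm_num) (by norm_num)
        _ = 4 := Real.rpow_one _
    calc C * (4 ^ ((5 : ℝ) / 48) * (s / ρ) ^ ((5 : ℝ) / 48))
        ≤ C * (4 * (s / ρ) ^ ((5 : ℝ) / 48)) :=
          mul_le_mul_of_nonneg_left (mul_le_mul_of_nonneg_right e2 hx) hC.le
      _ ≤ (C * 4 + 64) * (s / ρ) ^ ((5 : ℝ) / 48) := by nlinarith
  · push Not at h64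
    have h1 : (μ : Measure (NonemptyCompacts ℂ)).real
        {K | ((K : Set ℂ) ∩ closedBall z s).Nonempty} ≤ 1 := by
      exact measureReal_le_one
    refine h1.trans ?_
    have e1 : (1 : ℝ) / 64 ≤ s / ρ := by
      rw [div_le_div_iff₀ (by norm_num) hρ]; linarith
    have e2 : (1 : ℝ) / 64 ≤ (s / ρ) ^ ((5 : ℝ) / 48) := by
      calc (1 : ℝ) / 64 ≤ s / ρ := e1
        _ = (s / ρ) ^ (1 : ℝ) := (Real.rpow_one _).symm
        _ ≤ (s / ρ) ^ ((5 : ℝ) / 48) := by
          apply Real.rpow_le_rpow_of_exponent_ge (by positivity) _ (by norm_num)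
          rw [div_le_one hρ]; exact hsρ
    nlinarith

end Pool.Agent.H389R2.CD
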