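import Pool.Agent.H160R2.CV.Max

/-!
# The standard event: many far reaching vertices in a box, with bounded energy
-/

set_option autoImplicit false
set_option maxHeartbeats 1000000

namespace Pool.Agent.H389R2.CD
open Finset H974 Pool.Agent.H160R2.CV

/-- the sharp one-arm estimate -/
def ArS : Prop := ∃ c C : ℝ, 0 < c ∧ 0 < C ∧ ∀ n : ℕ, 1 ≤ n →
    c * (n : ℝ) ^ (-(5 / 48 : ℝ)) ≤ ar n ∧ ar n ≤ C * (n : ℝ) ^ (-(5 / 48 : ℝ))

open Classical in
/-- the set of the far reaching vertices of the box of radius `r` -/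
noncomputable def FT (r : ℕ) (F : Finset Edg) : Finset Vtx :=
  (bx r).filter (fun x => Far x (5 * r) (F ∩ boxE (6 * r)))

theorem mem_FT {r : ℕ} {F : Finset Edg} {x : Vtx} :
    x ∈ FT r F ↔ x ∈ bx r ∧ Far x (5 * r) (F ∩ boxE (6 * r)) := by
  classical
  unfold FT
  rw [Finset.mem_filter]

/-- the kernel -/
noncomputable def kn (t : ℝ) (x y : Vtx) : ℝ := ((max (nv (x - y)) 1 : ℕ) : ℝ) ^ (-t)

theorem kn_pos (t : ℝ) (x y : Vtx) : 0 < kn t x y := by
  unfold kn
  have : (0 : ℝ) < ((max (nv (x - y)) 1 : ℕ) : ℝ) := by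
    have : 0 < max (nv (x - y)) 1 := lt_of_lt_of_le Nat.one_pos (le_max_right _ _)
    exact_mod_cast this
  positivity

/-- the energy of a finite set -/
noncomputable def eng (t : ℝ) (T : Finset Vtx) : ℝ := ∑ x ∈ T, ∑ y ∈ T, kn t x y

theorem eng_nonneg (t : ℝ) (T : Finset Vtx) : 0 ≤ eng t T :=
  Finset.sum_nonneg fun _ _ => Finset.sum_nonneg fun _ _ => (kn_pos _ _ _).le

/-- the expected order of the size -/
noncomputable def sz (r : ℕ) : ℝ := (r : ℝ) ^ 2 * ar r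

theorem sz_pos {r : ℕ} (hr : 1 ≤ r) : 0 < sz r := by
  unfold sz
  have := ar_pos r
  have : (0 : ℝ) < r := by exact_mod_cast hr
  positivity

/-- second moment method with an additional increasing event -/
theorem pz {S : Finset Edg} {Y : Finset Edg → ℝ} {B : Finset Edg → Prop}
    (hYi : Incr S Y) (hBi : IncrE S B) {A m β C : ℝ} (hA : 0 < A) (hm : 0 < m) (hβ0 : 0 < β)
    (hC : 0 < C) (h1 : m * A ≤ Ex P S Y) (hβ : β ≤ Pr P S B)
    (h2 : Ex P S (fun F => Y F ^ 2) ≤ C * A ^ 2) :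
    (m * β) ^ 2 / (4 * C) ≤ Pr P S (fun F => m * β / 2 * A ≤ Y F ∧ B F) := by
  set c1 : ℝ := m * β with hc1
  have hc10 : 0 < c1 := by positivity
  set a : ℝ := c1 / 2 with ha
  have ha0 : 0 < a := by positivity
  have hEYC : c1 * A ≤ Ex P S (fun F => Y F * ind (B F)) := by
    refine le_trans ?_ (harris w_ok hYi hBi.incr)
    have h7 : Ex P S (fun F => ind (B F)) = Pr P S B := rfl
    rw [h7]
    calc c1 * A = m * A * β := by rw [hc1]; ring
      _ ≤ Ex P S Y * Pr P S B := mul_le_mul h1 hβ hβ0.le (le_trans (by positivity) h1)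
  set Gd : Finset Edg → Prop := fun F => a * A ≤ Y F ∧ B F with hGd
  set s : ℝ := 2 * C * A / c1 with hs
  have hs0 : 0 < s := by positivity
  have hpt : ∀ F, Y F * ind (B F) ≤ a * A + (1 / (2 * s) * Y F ^ 2 + s / 2 * ind (Gd F)) := by
    intro F
    by_cases hc : B F
    · rw [ind_of hc, mul_one]
      by_cases hy : a * A ≤ Y F
      · rw [ind_of (show Gd F from ⟨hy, hc⟩), mul_one]
        have h10 : Y F ≤ 1 / (2 * s) * Y F ^ 2 + s / 2 := by
          rw [← sub_nonneg]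
          have : 1 / (2 * s) * Y F ^ 2 + s / 2 - Y F = 1 / (2 * s) * (Y F - s) ^ 2 := by
            field_simp
            ring
          rw [this]
          positivity
        have : 0 < a * A := by positivity
        linarith
      · push Not at hy
        have h11 := ind_nonneg (Gd F)
        have : 0 ≤ 1 / (2 * s) * Y F ^ 2 + s / 2 * ind (Gd F) := by positivity
        linarith
    · rw [ind_not_of hc, mul_zero]
      have h11 := ind_nonneg (Gd F)
      positivity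
  have hint : Ex P S (fun F => Y F * ind (B F)) ≤
      a * A + (1 / (2 * s) * Ex P S (fun F => Y F ^ 2) + s / 2 * Pr P S Gd) := by
    refine (Ex_mono w_ok (fun F _ => hpt F)).trans (le_of_eq ?_)
    rw [Ex_add, Ex_const, Ex_add, Ex_mul_left, Ex_mul_left]
    rfl
  have h12 : c1 * A ≤ a * A + (1 / (2 * s) * (C * A ^ 2) + s / 2 * Pr P S Gd) := by
    refine hEYC.trans (hint.trans ?_)
    have : 1 / (2 * s) * Ex P S (fun F => Y F ^ 2) ≤ 1 / (2 * s) * (C * A ^ 2) :=
      mul_le_mul_of_nonneg_left h2 (by positivity)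
    linarith
  have h13 : 1 / (2 * s) * (C * A ^ 2) = c1 * A / 4 := by
    rw [hs]; field_simp; ring
  rw [h13, ha] at h12
  have h14 : c1 * A / 4 ≤ s / 2 * Pr P S Gd := by linarith
  have h15 : s / 2 = C * A / c1 := by rw [hs]; ring
  rw [h15] at h14
  have h16 : c1 / 4 ≤ C / c1 * Pr P S Gd := by
    have h17 : (c1 / 4) * A ≤ (C / c1 * Pr P S Gd) * A := by
      calc (c1 / 4) * A = c1 * A / 4 := by ring
        _ ≤ _ := h14
        _ = _ := by ring
    exact le_of_mul_le_mul_right h17 hA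
  rw [div_le_iff₀ (by positivity)]
  have h18 : c1 / 4 * c1 ≤ C / c1 * Pr P S Gd * c1 := mul_le_mul_of_nonneg_right h16 hc10.le
  have h19 : C / c1 * Pr P S Gd * c1 = C * Pr P S Gd := by field_simp
  rw [h19] at h18
  nlinarith

/-- Markov's inequality -/
theorem mkv {S : Finset Edg} {Y : Finset Edg → ℝ} (hY0 : ∀ F, 0 ≤ Y F) {m E : ℝ} (hE : 0 < E)
    (h1 : Ex P S Y ≤ m) : Pr P S (fun F => ¬ Y F ≤ E) ≤ m / E := by
  rw [le_div_iff₀ hE, mul_comm]
  refine le_trans ?_ h1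
  unfold Pr
  rw [← Ex_mul_left]
  apply Ex_mono w_ok
  intro F _
  by_cases h : Y F ≤ E
  · rw [ind_not_of (not_not.mpr h), mul_zero]; exact hY0 F
  · rw [ind_of h, mul_one]; exact (not_le.mp h).le

/-- sums of powers -/
theorem sum_pow_le {b : ℝ} (hb0 : 0 ≤ b) (hb1 : b < 1) (n : ℕ) :
    ∑ k ∈ range (n + 1), ((max k 1 : ℕ) : ℝ) ^ (-b) ≤ 1 + (n : ℝ) ^ (1 - b) / (1 - b) := by
  have h1b : 0 < 1 - b := by linarith
  induction n with
  | zero =>
    simp
    rw [Real.zero_rpow (by linarith)]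
    simp
  | succ n ih =>
    rw [Finset.sum_range_succ]
    have hm : max (n + 1) 1 = n + 1 := by omega
    rw [hm]
    have hn : (0 : ℝ) < ((n + 1 : ℕ) : ℝ) := by exact_mod_cast Nat.succ_pos n
    have key : ((n + 1 : ℕ) : ℝ) ^ (-b) ≤
        (((n + 1 : ℕ) : ℝ) ^ (1 - b) - (n : ℝ) ^ (1 - b)) / (1 - b) := by
      rw [le_div_iff₀ h1b]
      have e1 : (n : ℝ) = ((n + 1 : ℕ) : ℝ) * (1 + -(1 / ((n + 1 : ℕ) : ℝ))) := by
        field_simp
        push_cast
        ring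
      have h3 : (1 : ℝ) / ((n + 1 : ℕ) : ℝ) ≤ 1 := by
        rw [div_le_one hn]
        push_cast
        linarith [(Nat.cast_nonneg n : (0 : ℝ) ≤ n)]
      have h2 := rpow_one_add_le_one_add_mul_self (s := -(1 / ((n + 1 : ℕ) : ℝ)))
        (by linarith) (p := 1 - b) h1b.le (by linarith)
      have e2 : (n : ℝ) ^ (1 - b) = ((n + 1 : ℕ) : ℝ) ^ (1 - b) *
          (1 + -(1 / ((n + 1 : ℕ) : ℝ))) ^ (1 - b) := by
        rw [← Real.mul_rpow hn.le (by linarith), ← e1]
      have e3 : ((n + 1 : ℕ) : ℝ) ^ (-b) = ((n + 1 : ℕ) : ℝ) ^ (1 - b) * (1 / ((n + 1 : ℕ) : ℝ)) := by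
        rw [show (1 : ℝ) / ((n + 1 : ℕ) : ℝ) = ((n + 1 : ℕ) : ℝ) ^ (-1 : ℝ) by
          rw [Real.rpow_neg_one]; simp, ← Real.rpow_add hn]
        congr 1; ring
      rw [e2, e3]
      have h4 : (0 : ℝ) < ((n + 1 : ℕ) : ℝ) ^ (1 - b) := by positivity
      nlinarith
    calc _ ≤ (1 + (n : ℝ) ^ (1 - b) / (1 - b)) +
        (((n + 1 : ℕ) : ℝ) ^ (1 - b) - (n : ℝ) ^ (1 - b)) / (1 - b) := add_le_add ih key
      _ = _ := by ring

/-- the first moment of the energy -/
theorem eng_moment (hAr : ArS) {t : ℝ} (ht1 : 1 ≤ t) (ht : t < 91 / 48) :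
    ∃ C : ℝ, 0 < C ∧ ∀ r : ℕ, 1 ≤ r → ∀ S : Finset Edg,
      Ex P S (fun F => eng t (FT r F)) ≤ C * ((sz r) ^ 2 * (r : ℝ) ^ (-t)) := by
  classical
  obtain ⟨c0, C0, hc0, hC0, har⟩ := hAr
  obtain ⟨C1, hC1, h1⟩ := pair_bound
  set b : ℝ := t + 5 / 48 - 1 with hb
  have hb0 : 0 ≤ b := by rw [hb]; linarith
  have hb1 : b < 1 := by rw [hb]; linarith
  have h1b : 0 < 1 - b := by linarith
  set D : ℝ := 1 + 2 / (1 - b) with hD
  have hD0 : 0 < D := by positivity
  refine ⟨9 * C1 * 8 * (2 * (1 + C0) * D) / c0, by positivity, fun r hr S => ?_⟩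
  have hr1 : (1 : ℝ) ≤ r := by exact_mod_cast hr
  have hr0 : (0 : ℝ) < r := by linarith
  have harr := ar_pos r
  set f : ℕ → ℝ := fun k => ar k * ((max k 1 : ℕ) : ℝ) ^ (-t) with hf
  have hf0 : ∀ k, 0 ≤ f k := by
    intro k
    have := ar_pos k
    rw [hf]; positivity
  -- bound of the one-dimensional sum
  have hsum : ∑ k ∈ range (2 * r + 1), ((k : ℝ) + 1) * f k ≤
      2 * (1 + C0) * D * (r : ℝ) ^ (1 - b) := by
    have h2 : ∀ k ∈ range (2 * r + 1), ((k : ℝ) + 1) * f k ≤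
        2 * (1 + C0) * ((max k 1 : ℕ) : ℝ) ^ (-b) := by
      intro k _
      rcases Nat.eq_zero_or_pos k with hk | hk
      · subst hk
        rw [hf]
        simp only [Nat.cast_zero, zero_add, one_mul]
        have e1 : max 0 1 = 1 := rfl
        rw [e1]
        simp only [Nat.cast_one, Real.one_rpow, mul_one]
        have := ar_le_one 0
        nlinarith
      · have e1 : max k 1 = k := by omega
        rw [hf]
        simp only [e1]
        have hk0 : (0 : ℝ) < k := by exact_mod_cast hk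
        have hk1 : (1 : ℝ) ≤ k := by exact_mod_cast hk
        have h3 := (har k hk).2
        have e2 : (k : ℝ) ^ (-b) = k * ((k : ℝ) ^ (-(5 / 48 : ℝ)) * (k : ℝ) ^ (-t)) := by
          rw [← Real.rpow_add hk0]
          nth_rewrite 2 [← Real.rpow_one (k : ℝ)]
          rw [← Real.rpow_add hk0]
          congr 1
          rw [hb]; ring
        rw [e2]
        have h4 : (0 : ℝ) < (k : ℝ) ^ (-t) := by positivity
        have h5 : (0 : ℝ) < (k : ℝ) ^ (-(5 / 48 : ℝ)) := by positivity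
        calc ((k : ℝ) + 1) * (ar k * (k : ℝ) ^ (-t))
            ≤ (2 * k) * ((C0 * (k : ℝ) ^ (-(5 / 48 : ℝ))) * (k : ℝ) ^ (-t)) := by
              apply mul_le_mul (by linarith) (mul_le_mul_of_nonneg_right h3 h4.le)
                (mul_nonneg (ar_pos k).le h4.le) (by positivity)
          _ = 2 * C0 * (k * ((k : ℝ) ^ (-(5 / 48 : ℝ)) * (k : ℝ) ^ (-t))) := by ring
          _ ≤ 2 * (1 + C0) * (k * ((k : ℝ) ^ (-(5 / 48 : ℝ)) * (k : ℝ) ^ (-t))) := by
              apply mul_le_mul_of_nonneg_right _ (by positivity)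
              linarith
    refine (Finset.sum_le_sum h2).trans ?_
    rw [← Finset.mul_sum, mul_assoc (2 * (1 + C0))]
    apply mul_le_mul_of_nonneg_left _ (by positivity)
    refine (sum_pow_le hb0 hb1 (2 * r)).trans ?_
    have h3 : (1 : ℝ) ≤ (r : ℝ) ^ (1 - b) := Real.one_le_rpow hr1 h1b.le
    have h4 : ((2 * r : ℕ) : ℝ) ^ (1 - b) ≤ 2 * (r : ℝ) ^ (1 - b) := by
      push_cast
      rw [Real.mul_rpow (by norm_num) hr0.le]
      apply mul_le_mul_of_nonneg_right _ (by positivity)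
      calc (2 : ℝ) ^ (1 - b) ≤ (2 : ℝ) ^ (1 : ℝ) :=
            Real.rpow_le_rpow_of_exponent_le (by norm_num) (by linarith)
        _ = 2 := Real.rpow_one _
    have h5 : ((2 * r : ℕ) : ℝ) ^ (1 - b) / (1 - b) ≤ 2 / (1 - b) * (r : ℝ) ^ (1 - b) := by
      rw [div_mul_eq_mul_div]
      exact div_le_div_of_nonneg_right h4 h1b.le
    calc 1 + ((2 * r : ℕ) : ℝ) ^ (1 - b) / (1 - b)
        ≤ (r : ℝ) ^ (1 - b) + 2 / (1 - b) * (r : ℝ) ^ (1 - b) := add_le_add h3 h5
      _ = D * (r : ℝ) ^ (1 - b) := by rw [hD]; ring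
  -- energy as a double sum of indicators
  have e0 : ∀ F, eng t (FT r F) ≤ ∑ x ∈ bx r, ∑ y ∈ bx r, kn t x y * ind (Far x r F ∧ Far y r F) := by
    intro F
    unfold eng
    have hF : ∀ x, x ∈ FT r F → x ∈ bx r ∧ Far x r F := by
      intro x hx
      rw [mem_FT] at hx
      exact ⟨hx.1, (hx.2.mono_r (by omega)).mono_F Finset.inter_subset_left⟩
    calc ∑ x ∈ FT r F, ∑ y ∈ FT r F, kn t x y
        = ∑ x ∈ FT r F, ∑ y ∈ FT r F, kn t x y * ind (Far x r F ∧ Far y r F) := by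
          apply Finset.sum_congr rfl
          intro x hx
          apply Finset.sum_congr rfl
          intro y hy
          rw [ind_of ⟨(hF x hx).2, (hF y hy).2⟩, mul_one]
      _ ≤ ∑ x ∈ FT r F, ∑ y ∈ bx r, kn t x y * ind (Far x r F ∧ Far y r F) := by
          apply Finset.sum_le_sum
          intro x _
          exact Finset.sum_le_sum_of_subset_of_nonneg (fun y hy => (hF y hy).1)
            (fun y _ _ => mul_nonneg (kn_pos _ _ _).le (ind_nonneg _))
      _ ≤ _ := Finset.sum_le_sum_of_subset_of_nonneg (fun y hy => (hF y hy).1)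
            (fun y _ _ => Finset.sum_nonneg fun _ _ => mul_nonneg (kn_pos _ _ _).le (ind_nonneg _))
  refine (Ex_mono w_ok (fun F _ => e0 F)).trans ?_
  rw [Ex_sum]
  have hinner : ∀ x ∈ bx r, Ex P S (fun F => ∑ y ∈ bx r, kn t x y * ind (Far x r F ∧ Far y r F)) ≤
      C1 * ar r * (8 * (2 * (1 + C0) * D * (r : ℝ) ^ (1 - b))) := by
    intro x hx
    rw [Ex_sum]
    calc ∑ y ∈ bx r, Ex P S (fun F => kn t x y * ind (Far x r F ∧ Far y r F))
        ≤ ∑ y ∈ bx r, C1 * ar r * f (nv (y - x)) := by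
          apply Finset.sum_le_sum
          intro y hy
          rw [Ex_mul_left]
          have h2 := h1 r hr x y (w_nv_le hx hy) S
          have h3 : Ex P S (fun F => ind (Far x r F ∧ Far y r F)) ≤ C1 * (ar (nv (x - y)) * ar r) :=
            h2
          calc _ ≤ kn t x y * (C1 * (ar (nv (x - y)) * ar r)) :=
                mul_le_mul_of_nonneg_left h3 (kn_pos _ _ _).le
            _ = _ := by
                rw [hf]
                unfold kn
                rw [w_nv_comm x y]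
                ring
      _ = C1 * ar r * ∑ y ∈ bx r, f (nv (y - x)) := by rw [Finset.mul_sum]
      _ ≤ C1 * ar r * (8 * ∑ k ∈ range (2 * r + 1), ((k : ℝ) + 1) * f k) := by
          apply mul_le_mul_of_nonneg_left (sum_bx_shift r x hx f hf0)
          positivity
      _ ≤ _ := by
          apply mul_le_mul_of_nonneg_left _ (by positivity)
          exact mul_le_mul_of_nonneg_left hsum (by norm_num)
  calc ∑ x ∈ bx r, Ex P S (fun F => ∑ y ∈ bx r, kn t x y * ind (Far x r F ∧ Far y r F))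
      ≤ ∑ x ∈ bx r, C1 * ar r * (8 * (2 * (1 + C0) * D * (r : ℝ) ^ (1 - b))) :=
        Finset.sum_le_sum hinner
    _ = (2 * (r : ℝ) + 1) ^ 2 * (C1 * ar r * (8 * (2 * (1 + C0) * D * (r : ℝ) ^ (1 - b)))) := by
        rw [Finset.sum_const, nsmul_eq_mul, w_card_bx]
    _ ≤ (9 * (r : ℝ) ^ 2) * (C1 * ar r * (8 * (2 * (1 + C0) * D * (r : ℝ) ^ (1 - b)))) := by
        apply mul_le_mul_of_nonneg_right _ (by positivity)
        nlinarith
    _ ≤ 9 * C1 * 8 * (2 * (1 + C0) * D) / c0 * (sz r ^ 2 * (r : ℝ) ^ (-t)) := by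
        have e3 : (r : ℝ) ^ (1 - b) = (r : ℝ) ^ 2 * (r : ℝ) ^ (-t) * (r : ℝ) ^ (-(5 / 48 : ℝ)) := by
          rw [← Real.rpow_natCast (r : ℝ) 2, ← Real.rpow_add hr0, ← Real.rpow_add hr0]
          congr 1
          rw [hb]; push_cast; ring
        have h3 := (har r hr).1
        have h5 : (r : ℝ) ^ (-(5 / 48 : ℝ)) ≤ ar r / c0 := by
          rw [le_div_iff₀ hc0, mul_comm]; exact h3
        rw [e3]
        have h6 : (0 : ℝ) < (r : ℝ) ^ (-t) := by positivity
        calc 9 * (r : ℝ) ^ 2 * (C1 * ar r * (8 * (2 * (1 + C0) * D *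
              ((r : ℝ) ^ 2 * (r : ℝ) ^ (-t) * (r : ℝ) ^ (-(5 / 48 : ℝ))))))
            = (9 * C1 * 8 * (2 * (1 + C0) * D) * ((r : ℝ) ^ 2 * (r : ℝ) ^ 2 * ar r *
              (r : ℝ) ^ (-t))) * (r : ℝ) ^ (-(5 / 48 : ℝ)) := by ring
          _ ≤ (9 * C1 * 8 * (2 * (1 + C0) * D) * ((r : ℝ) ^ 2 * (r : ℝ) ^ 2 * ar r *
              (r : ℝ) ^ (-t))) * (ar r / c0) := mul_le_mul_of_nonneg_left h5 (by positivity)
          _ = _ := by unfold sz; ring

/-- the first moment of the size -/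
theorem size_moment : ∃ m : ℝ, 0 < m ∧ ∀ r : ℕ, 1 ≤ r → ∀ S : Finset Edg, boxE (6 * r) ⊆ S →
    m * sz r ≤ Ex P S (fun F => ((FT r F).card : ℝ)) := by
  classical
  obtain ⟨C4, hC4, h4⟩ := ar_ratio 5
  refine ⟨4 / C4, by positivity, fun r hr S hS => ?_⟩
  have hr1 : (1 : ℝ) ≤ r := by exact_mod_cast hr
  have harr := ar_pos r
  have h6 : ar r / C4 ≤ ar (5 * r) := by
    rw [div_le_iff₀ hC4, mul_comm]
    exact h4 r (5 * r) (by omega) (by omega)
  have e1 : ∀ F, ((FT r F).card : ℝ) = ∑ x ∈ bx r, ind (Far x (5 * r) (F ∩ boxE (6 * r))) := by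
    intro F
    unfold FT
    rw [w_sum_ind]
  rw [Ex_congr (fun F _ => e1 F), Ex_sum]
  have h5 : ∀ x ∈ bx r, ar (5 * r) ≤ Ex P S (fun F => ind (Far x (5 * r) (F ∩ boxE (6 * r)))) := by
    intro x hx
    have h7 : Pr P S (fun F => Far x (5 * r) (F ∩ boxE (6 * r))) =
        Pr P (boxE (6 * r)) (Far x (5 * r)) := by
      rw [Pr_local hS (A := fun F => Far x (5 * r) (F ∩ boxE (6 * r)))]
      · apply Pr_congr
        intro F hF
        rw [Finset.inter_eq_left.mpr hF]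
      · intro F _
        rw [Finset.inter_assoc, Finset.inter_self]
    have h8 : Pr P S (fun F => Far x (5 * r) (F ∩ boxE (6 * r))) =
      Ex P S (fun F => ind (Far x (5 * r) (F ∩ boxE (6 * r)))) := rfl
    rw [← h8, h7]
    exact far_ge (n := r) (r := 5 * r) (boxE_mono (by omega)) hx
  calc 4 / C4 * sz r = (4 * (r : ℝ) ^ 2) * (ar r / C4) := by unfold sz; ring
    _ ≤ (2 * (r : ℝ) + 1) ^ 2 * (ar r / C4) := by
        apply mul_le_mul_of_nonneg_right _ (by positivity)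
        nlinarith
    _ ≤ (2 * (r : ℝ) + 1) ^ 2 * ar (5 * r) := by
        apply mul_le_mul_of_nonneg_left h6 (by positivity)
    _ = ∑ x ∈ bx r, ar (5 * r) := by rw [Finset.sum_const, nsmul_eq_mul, w_card_bx]
    _ ≤ _ := Finset.sum_le_sum h5

/-- the second moment of the size -/
theorem size_second : ∃ C : ℝ, 0 < C ∧ ∀ r : ℕ, 1 ≤ r → ∀ S : Finset Edg,
    Ex P S (fun F => ((FT r F).card : ℝ) ^ 2) ≤ C * (sz r) ^ 2 := by
  classical
  obtain ⟨C2, hC2, h2⟩ := second_moment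
  refine ⟨C2, hC2, fun r hr S => ?_⟩
  have h8 : ∀ F, ((FT r F).card : ℝ) ^ 2 ≤ ∑ x ∈ bx r, ∑ y ∈ bx r, ind (Far x r F ∧ Far y r F) := by
    intro F
    have e1 : ((FT r F).card : ℝ) = ∑ x ∈ bx r, ind (Far x (5 * r) (F ∩ boxE (6 * r))) := by
      unfold FT
      rw [w_sum_ind]
    rw [e1, sq, Finset.sum_mul_sum]
    apply Finset.sum_le_sum
    intro x _
    apply Finset.sum_le_sum
    intro y _
    rw [← ind_and]
    apply ind_mono
    rintro ⟨k1, k2⟩
    exact ⟨(k1.mono_r (by omega)).mono_F Finset.inter_subset_left,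
      (k2.mono_r (by omega)).mono_F Finset.inter_subset_left⟩
  refine (Ex_mono w_ok (fun F _ => h8 F)).trans ?_
  have h9 := h2 r hr S
  refine le_trans (le_of_eq ?_) h9
  rw [Ex_sum]
  apply Finset.sum_congr rfl
  intro x _
  rw [Ex_sum]
  rfl

/-- The good sets of vertices at scale `r`. -/
def SG (t a E : ℝ) (r : ℕ) (T : Finset Vtx) : Prop :=
  a * sz r ≤ (T.card : ℝ) ∧ eng t T ≤ E * ((sz r) ^ 2 * (r : ℝ) ^ (-t))

theorem FT_mono {r : ℕ} {F G : Finset Edg} (h : F ⊆ G) : FT r F ⊆ FT r G := by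
  intro x hx
  rw [mem_FT] at hx ⊢
  exact ⟨hx.1, hx.2.mono_F (Finset.inter_subset_inter_right h)⟩

/-- **The standard event has positive probability, together with any increasing event.** -/
theorem std_prob (hAr : ArS) {t : ℝ} (ht1 : 1 ≤ t) (ht : t < 91 / 48) {β : ℝ} (hβ : 0 < β) :
    ∃ p a E : ℝ, 0 < p ∧ 0 < a ∧ 0 < E ∧ ∀ r : ℕ, 1 ≤ r → ∀ S : Finset Edg, boxE (6 * r) ⊆ S →
      ∀ B : Finset Edg → Prop, IncrE S B → β ≤ Pr P S B →
      p ≤ Pr P S (fun F => B F ∧ SG t a E r (FT r F)) := by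
  obtain ⟨m, hm, h1⟩ := size_moment
  obtain ⟨C2, hC2, h2⟩ := size_second
  obtain ⟨C3, hC3, h3⟩ := eng_moment hAr ht1 ht
  set p0 : ℝ := (m * β) ^ 2 / (4 * C2) with hp0
  have hp00 : 0 < p0 := by positivity
  refine ⟨p0 / 2, m * β / 2, 2 * C3 / p0, by positivity, by positivity, by positivity, ?_⟩
  intro r hr S hS B hB hBβ
  have hA := sz_pos hr
  have hr0 : (0 : ℝ) < r := by exact_mod_cast hr
  have k1 := pz (S := S) (Y := fun F => ((FT r F).card : ℝ)) (B := B)
    (fun F G hFG _ => by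
      have := Finset.card_le_card (FT_mono (r := r) hFG)
      show ((FT r F).card : ℝ) ≤ ((FT r G).card : ℝ)
      exact_mod_cast this) hB hA hm hβ hC2 (h1 r hr S hS) hBβ (h2 r hr S)
  set E1 : ℝ := 2 * C3 / p0 * ((sz r) ^ 2 * (r : ℝ) ^ (-t)) with hE1
  have hE10 : 0 < E1 := by
    have : (0 : ℝ) < (r : ℝ) ^ (-t) := by positivity
    positivity
  have k2 := mkv (S := S) (Y := fun F => eng t (FT r F)) (fun F => eng_nonneg _ _) hE10
    (h3 r hr S)
  have e1 : C3 * ((sz r) ^ 2 * (r : ℝ) ^ (-t)) / E1 = p0 / 2 := by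
    have : (0 : ℝ) < (r : ℝ) ^ (-t) := by positivity
    rw [hE1]
    field_simp
  rw [e1] at k2
  have k3 : Pr P S (fun F => m * β / 2 * sz r ≤ ((FT r F).card : ℝ) ∧ B F) ≤
      Pr P S (fun F => B F ∧ SG t (m * β / 2) (2 * C3 / p0) r (FT r F)) +
        Pr P S (fun F => ¬ eng t (FT r F) ≤ E1) := by
    refine le_trans (Pr_mono w_ok ?_) (Pr_or_le w_ok S _ _)
    rintro F _ ⟨l1, l2⟩
    by_cases l3 : eng t (FT r F) ≤ E1
    · left; exact ⟨l2, l1, l3⟩
    · right; exact l3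
  linarith

end Pool.Agent.H389R2.CD
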