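import Pool.Agent.H389R2.Dim.Lower
import Pool.Agent.H389R2.Dim.Upper
import Pool.Agent.H389R2.CD.Std
import Pool.Agent.H934R2.Expl.Model

/-!
# Laws of random compact sets; local versions of the bounds for the dimension of the limit
-/

set_option autoImplicit false
set_option maxHeartbeats 1000000

namespace Pool.Agent.H389R2.CD

open H974 Pool.Agent.H160R2.CV MeasureTheory TopologicalSpace Filter Topology Metric Set
open Pool.Agent.H389R2.Dim
open scoped ENNReal NNReal

/-- The law of the random compact set `K F`, when all sets `F` of open edges of `S` are equally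
likely. -/
noncomputable def lawM (S : Finset Edg) (K : Finset Edg → NonemptyCompacts ℂ) :
    Measure (NonemptyCompacts ℂ) :=
  ∑ F ∈ S.powerset, ENNReal.ofReal ((1 / 2) ^ S.card) • Measure.dirac (K F)

theorem lawM_apply (S : Finset Edg) (K : Finset Edg → NonemptyCompacts ℂ)
    {G : Set (NonemptyCompacts ℂ)} (hG : MeasurableSet G) :
    lawM S K G = ENNReal.ofReal (Pr P S (fun F => K F ∈ G)) := by
  classical
  unfold lawM
  rw [Measure.finsetSum_apply]
  unfold Pr P
  rw [H973.Ex_half, ENNReal.ofReal_mul (by positivity), ENNReal.ofReal_sum_of_nonneg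
    (fun _ _ => ind_nonneg _), Finset.mul_sum]
  apply Finset.sum_congr rfl
  intro F _
  rw [Measure.smul_apply, Measure.dirac_apply' _ hG, smul_eq_mul]
  congr 1
  by_cases h : K F ∈ G
  · rw [ind_of h, Set.indicator_of_mem h]; simp
  · rw [ind_not_of h, Set.indicator_of_notMem h]; simp

theorem lawM_univ (S : Finset Edg) (K : Finset Edg → NonemptyCompacts ℂ) : lawM S K univ = 1 := by
  rw [lawM_apply S K MeasurableSet.univ]
  have : Pr P S (fun F => K F ∈ (univ : Set (NonemptyCompacts ℂ))) = 1 :=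
    Pr_true _ (fun F _ => Set.mem_univ _)
  rw [this]
  simp

/-- The law of `K F` as a probability measure. -/
noncomputable def lawP (S : Finset Edg) (K : Finset Edg → NonemptyCompacts ℂ) :
    ProbabilityMeasure (NonemptyCompacts ℂ) := ⟨lawM S K, ⟨lawM_univ S K⟩⟩

theorem lawP_apply (S : Finset Edg) (K : Finset Edg → NonemptyCompacts ℂ)
    {G : Set (NonemptyCompacts ℂ)} (hG : MeasurableSet G) :
    (lawP S K : Measure (NonemptyCompacts ℂ)) G = ENNReal.ofReal (Pr P S (fun F => K F ∈ G)) :=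
  lawM_apply S K hG

section

variable {X : Type*} [MetricSpace X]

theorem isClosed_good_inter (t δ c : ℝ) {A : Set X} (hA : IsClosed A) :
    IsClosed {K : NonemptyCompacts X | Good t δ c ((K : Set X) ∩ A)} := by
  have h : {K : NonemptyCompacts X | Good t δ c ((K : Set X) ∩ A)} =
      ⋂ s : Finset (X × ℝ), {K : NonemptyCompacts X | (∀ p ∈ s, δ ≤ p.2) →
        (K : Set X) ∩ A ⊆ ⋃ p ∈ s, ball p.1 p.2 → c ≤ ∑ p ∈ s, p.2 ^ t} := by
    ext K; simp [Good]
  rw [h]
  apply isClosed_iInter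
  intro s
  by_cases h1 : (∀ p ∈ s, δ ≤ p.2) ∧ ¬ c ≤ ∑ p ∈ s, p.2 ^ t
  · have h2 : {K : NonemptyCompacts X | (∀ p ∈ s, δ ≤ p.2) →
        (K : Set X) ∩ A ⊆ ⋃ p ∈ s, ball p.1 p.2 → c ≤ ∑ p ∈ s, p.2 ^ t} =
        {K : NonemptyCompacts X | (K : Set X) ⊆ (⋃ p ∈ s, ball p.1 p.2) ∪ Aᶜ}ᶜ := by
      ext K
      simp only [Set.mem_ofPred_eq, Set.mem_compl_iff]
      constructor
      · intro h3 h4
        refine h1.2 (h3 h1.1 ?_)
        rintro x ⟨hx1, hx2⟩
        rcases h4 hx1 with h5 | h5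
        · exact h5
        · exact absurd hx2 h5
      · intro h3 _ h4
        exfalso
        apply h3
        intro x hx
        by_cases hxA : x ∈ A
        · left; exact h4 ⟨hx, hxA⟩
        · right; exact hxA
    rw [h2]
    exact (NonemptyCompacts.isOpen_subsets_of_isOpen
      ((isOpen_biUnion fun p _ => isOpen_ball).union hA.isOpen_compl)).isClosed_compl
  · have h2 : {K : NonemptyCompacts X | (∀ p ∈ s, δ ≤ p.2) →
        (K : Set X) ∩ A ⊆ ⋃ p ∈ s, ball p.1 p.2 → c ≤ ∑ p ∈ s, p.2 ^ t} = univ := by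
      ext K
      simp only [Set.mem_ofPred_eq, Set.mem_univ, iff_true]
      intro h3 _
      by_contra h4
      exact h1 ⟨h3, h4⟩
    rw [h2]; exact isClosed_univ

/-- Local form of the lower bound for limits in law: on a closed event `V` of the limit. -/
theorem lower_inter [MeasurableSpace (NonemptyCompacts X)] [BorelSpace (NonemptyCompacts X)]
    {t : ℝ} (ht : 0 < t) {μs : ℕ → ProbabilityMeasure (NonemptyCompacts X)}
    {μ : ProbabilityMeasure (NonemptyCompacts X)} (hμ : Tendsto μs atTop (𝓝 μ))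
    {A : Set X} (hA : IsClosed A) {V : Set (NonemptyCompacts X)} (hV : IsOpen V)
    (h : ∀ ε : ℝ≥0∞, 0 < ε → ∃ c : ℝ, 0 < c ∧ ∀ δ : ℝ, 0 < δ → ∃ᶠ n in atTop,
      (μs n : Measure (NonemptyCompacts X))
        {K : NonemptyCompacts X | K ∈ V ∧ ¬ Good t δ c ((K : Set X) ∩ A)} ≤ ε) :
    ∀ᵐ K : NonemptyCompacts X ∂(μ : Measure (NonemptyCompacts X)),
      K ∈ V → ENNReal.ofReal t ≤ dimH ((K : Set X) ∩ A) := by
  rw [ae_iff, ← nonpos_iff_eq_zero]
  apply ENNReal.le_of_forall_pos_le_add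
  intro ε hε _
  obtain ⟨c, hc, h1⟩ := h ε (by exact_mod_cast hε)
  have hopen : ∀ δ : ℝ, IsOpen {K : NonemptyCompacts X | K ∈ V ∧ ¬ Good t δ c ((K : Set X) ∩ A)} := by
    intro δ
    exact hV.inter (isClosed_good_inter t δ c hA).isOpen_compl
  have h2 : ∀ δ : ℝ, 0 < δ → (μ : Measure (NonemptyCompacts X))
      {K : NonemptyCompacts X | K ∈ V ∧ ¬ Good t δ c ((K : Set X) ∩ A)} ≤ ε := by
    intro δ hδ
    refine (ProbabilityMeasure.le_liminf_measure_open_of_tendsto hμ (hopen δ)).trans ?_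
    exact liminf_le_of_frequently_le (h1 δ hδ)
  set B : ℕ → Set (NonemptyCompacts X) := fun m =>
    {K : NonemptyCompacts X | K ∈ V ∧ ¬ Good t (1 / ((m : ℝ) + 1)) c ((K : Set X) ∩ A)} with hB
  have h3 : ({K : NonemptyCompacts X | ¬ (K ∈ V → ENNReal.ofReal t ≤ dimH ((K : Set X) ∩ A))} :
      Set (NonemptyCompacts X)) ⊆ ⋃ m : ℕ, B m := by
    intro K hK
    by_contra hcon
    apply hK
    intro hKV
    simp only [hB, Set.mem_iUnion, Set.mem_ofPred_eq, not_exists, not_and, not_not] at hcon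
    apply le_dimH_of_good ht hc (K.isCompact.inter_right hA)
    intro δ hδ
    obtain ⟨m, hm⟩ := exists_nat_one_div_lt hδ
    exact (hcon m hKV).anti hm.le
  refine le_trans (measure_mono h3) ?_
  rw [zero_add]
  have hmono : Monotone B := by
    intro m m' hmm K hK
    exact ⟨hK.1, fun hG => hK.2 (hG.anti (Nat.one_div_le_one_div hmm))⟩
  rw [hmono.measure_iUnion]
  exact iSup_le fun m => h2 _ (by positivity)

end

/-- The open square of radius `s` around `z`. -/
def sq (z : ℂ) (s : ℝ) : Set ℂ := {w | |w.re - z.re| < s ∧ |w.im - z.im| < s}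

theorem isOpen_sq (z : ℂ) (s : ℝ) : IsOpen (sq z s) := by
  have c1 : Continuous (fun w : ℂ => |w.re - z.re|) := by fun_prop
  have c2 : Continuous (fun w : ℂ => |w.im - z.im|) := by fun_prop
  exact (isOpen_lt c1 continuous_const).inter (isOpen_lt c2 continuous_const)

theorem ediam_sq (z : ℂ) (s : ℝ) : ediam (sq z s) ≤ ENNReal.ofReal (4 * s) := by
  apply ediam_le
  intro x hx y hy
  rw [edist_dist]
  apply ENNReal.ofReal_le_ofReal
  rw [Complex.dist_eq]
  refine (Complex.norm_le_abs_re_add_abs_im _).trans ?_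
  rw [Complex.sub_re, Complex.sub_im]
  obtain ⟨h1, h2⟩ := hx
  obtain ⟨h3, h4⟩ := hy
  rw [abs_lt] at h1 h2 h3 h4
  have h5 : |x.re - y.re| ≤ 2 * s := by rw [abs_le]; constructor <;> linarith
  have h6 : |x.im - y.im| ≤ 2 * s := by rw [abs_le]; constructor <;> linarith
  linarith

/-- Upper bound for the dimension of the limit in a bounded region. -/
theorem upper_sq {μs : ℕ → ProbabilityMeasure (NonemptyCompacts ℂ)}
    {μ : ProbabilityMeasure (NonemptyCompacts ℂ)} (hμ : Tendsto μs atTop (𝓝 μ)) {A : Set ℂ} {M : ℝ}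
    (hM : 0 < M) (hAM : ∀ z ∈ A, |z.re| ≤ M ∧ |z.im| ≤ M) {C s0 : ℝ} (hC : 0 < C) (hs0 : 0 < s0)
    (h : ∀ z : ℂ, ∀ s : ℝ, 0 < s → s ≤ s0 → (sq z s ∩ A).Nonempty → ∃ᶠ n in atTop,
      (μs n : Measure (NonemptyCompacts ℂ)) {K | ((K : Set ℂ) ∩ sq z s).Nonempty} ≤
        ENNReal.ofReal (C * s ^ ((5 : ℝ) / 48))) :
    ∀ᵐ K : NonemptyCompacts ℂ ∂(μ : Measure (NonemptyCompacts ℂ)),
      dimH ((K : Set ℂ) ∩ A) ≤ ENNReal.ofReal (91 / 48) := by
  classical
  have main : ∀ t : ℝ, 91 / 48 < t → ∀ᵐ K : NonemptyCompacts ℂ ∂(μ : Measure (NonemptyCompacts ℂ)),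
      dimH ((K : Set ℂ) ∩ A) ≤ ENNReal.ofReal t := by
    intro t ht
    have ht0 : 0 < t := by linarith
    set q : ℕ → ℝ := fun m => s0 * (1 / 2 : ℝ) ^ m with hq
    have hq0 : ∀ m, 0 < q m := fun m => by rw [hq]; positivity
    have hqs : ∀ m, q m ≤ s0 := by
      intro m
      rw [hq]
      have : (1 / 2 : ℝ) ^ m ≤ 1 := pow_le_one₀ (by norm_num) (by norm_num)
      nlinarith
    have hqlim : Tendsto q atTop (𝓝 0) := by
      have := (tendsto_pow_atTop_nhds_zero_of_lt_one (r := (1 / 2 : ℝ)) (by norm_num)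
        (by norm_num)).const_mul s0
      rwa [mul_zero] at this
    set N : ℕ → ℕ := fun m => ⌈2 * M / q m⌉₊ + 2 with hN
    set ct : ∀ m, Fin (N m) × Fin (N m) → ℂ := fun m i =>
      ⟨-M + (i.1 : ℕ) * q m, -M + (i.2 : ℕ) * q m⟩ with hct
    set U : ∀ m, Fin (N m) × Fin (N m) → Set ℂ := fun m i =>
      if (sq (ct m i) (q m) ∩ A).Nonempty then sq (ct m i) (q m) else ∅ with hU
    refine upper_of_tendsto ht0 hμ U ?_ (fun m => ENNReal.ofReal (4 * q m)) ?_ ?_ ?_
      (fun m _ => ENNReal.ofReal (C * (q m) ^ ((5 : ℝ) / 48))) ?_ ?_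
    · intro m i
      rw [hU]
      simp only
      split_ifs
      · exact isOpen_sq _ _
      · exact isOpen_empty
    · have := (hqlim.const_mul 4)
      rw [mul_zero] at this
      rw [← ENNReal.ofReal_zero]
      exact ENNReal.tendsto_ofReal this
    · intro m i
      rw [hU]
      simp only
      split_ifs
      · exact ediam_sq _ _
      · rw [ediam_empty]; exact bot_le
    · intro m z hz
      have hm := hq0 m
      obtain ⟨h1, h2⟩ := hAM z hz
      rw [abs_le] at h1 h2
      have key : ∀ x : ℝ, -M ≤ x → x ≤ M → ∃ i : Fin (N m), |x - (-M + (i : ℕ) * q m)| < q m := by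
        intro x hx1 hx2
        have h3 : 0 ≤ (x + M) / q m := div_nonneg (by linarith) hm.le
        have h4 : ⌊(x + M) / q m⌋₊ < N m := by
          rw [hN]
          simp only
          have h5 : ⌊(x + M) / q m⌋₊ ≤ ⌈2 * M / q m⌉₊ := by
            refine (Nat.floor_le_floor ?_).trans (Nat.floor_le_ceil _)
            exact div_le_div_of_nonneg_right (by linarith) hm.le
          omega
        refine ⟨⟨_, h4⟩, ?_⟩
        have h6 := Nat.floor_le h3
        have h7 := Nat.lt_floor_add_one ((x + M) / q m)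
        rw [le_div_iff₀ hm] at h6
        rw [div_lt_iff₀ hm] at h7
        rw [abs_lt]
        simp only
        constructor <;> nlinarith
      obtain ⟨i, hi⟩ := key z.re h1.1 h1.2
      obtain ⟨j, hj⟩ := key z.im h2.1 h2.2
      have hzU : z ∈ sq (ct m (i, j)) (q m) := ⟨hi, hj⟩
      refine Set.mem_iUnion.mpr ⟨(i, j), ?_⟩
      rw [hU]
      simp only
      rw [if_pos ⟨z, hzU, hz⟩]
      exact hzU
    · intro m i
      by_cases h1 : (sq (ct m i) (q m) ∩ A).Nonempty
      · have h2 := h (ct m i) (q m) (hq0 m) (hqs m) h1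
        refine h2.mono ?_
        intro n hn
        rw [hU]
        simp only
        rw [if_pos h1]
        exact hn
      · apply Frequently.of_forall
        intro n
        rw [hU]
        simp only
        rw [if_neg h1]
        have : {K : NonemptyCompacts ℂ | ((K : Set ℂ) ∩ (∅ : Set ℂ)).Nonempty} = ∅ := by
          ext K
          simp
        rw [this, measure_empty]
        exact bot_le
    · -- the sum
      have hbound : ∀ m, ∑ i : Fin (N m) × Fin (N m), ediam (U m i) ^ t *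
          ENNReal.ofReal (C * (q m) ^ ((5 : ℝ) / 48)) ≤
          ENNReal.ofReal ((2 * M + 3 * s0) ^ 2 * (4 ^ t * C) * (q m) ^ (t - 91 / 48)) := by
        intro m
        have hm := hq0 m
        have h1 : ∀ i ∈ (Finset.univ : Finset (Fin (N m) × Fin (N m))), ediam (U m i) ^ t *
            ENNReal.ofReal (C * (q m) ^ ((5 : ℝ) / 48)) ≤
            ENNReal.ofReal ((4 * q m) ^ t * (C * (q m) ^ ((5 : ℝ) / 48))) := by
          intro i _
          rw [ENNReal.ofReal_mul (p := (4 * q m) ^ t) (by positivity)]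
          refine mul_le_mul' ?_ le_rfl
          rw [← ENNReal.ofReal_rpow_of_pos (by positivity)]
          apply ENNReal.rpow_le_rpow _ ht0.le
          rw [hU]
          simp only
          split_ifs
          · exact ediam_sq _ _
          · rw [ediam_empty]; exact bot_le
        refine (Finset.sum_le_sum h1).trans ?_
        rw [Finset.sum_const, Finset.card_univ, Fintype.card_prod, Fintype.card_fin, nsmul_eq_mul,
          ← ENNReal.ofReal_natCast, ← ENNReal.ofReal_mul (by positivity)]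
        apply ENNReal.ofReal_le_ofReal
        have h2 : ((N m : ℕ) : ℝ) ≤ (2 * M + 3 * s0) / q m := by
          rw [hN]
          simp only
          push_cast
          have h3 : (⌈2 * M / q m⌉₊ : ℝ) < 2 * M / q m + 1 :=
            Nat.ceil_lt_add_one (div_nonneg (by positivity) hm.le)
          have h4 : 1 ≤ s0 / q m := by rw [le_div_iff₀ hm]; linarith [hqs m]
          have h5 : (2 * M + 3 * s0) / q m = 2 * M / q m + 3 * (s0 / q m) := by ring
          linarith
        have h3 : ((N m * N m : ℕ) : ℝ) ≤ ((2 * M + 3 * s0) / q m) ^ 2 := by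
          push_cast
          have : (0 : ℝ) ≤ N m := Nat.cast_nonneg _
          nlinarith
        calc ((N m * N m : ℕ) : ℝ) * ((4 * q m) ^ t * (C * (q m) ^ ((5 : ℝ) / 48)))
            ≤ ((2 * M + 3 * s0) / q m) ^ 2 * ((4 * q m) ^ t * (C * (q m) ^ ((5 : ℝ) / 48))) :=
              mul_le_mul_of_nonneg_right h3 (by positivity)
          _ = (2 * M + 3 * s0) ^ 2 * (4 ^ t * C) *
              ((q m) ^ t * (q m) ^ ((5 : ℝ) / 48) / (q m) ^ (2 : ℝ)) := by
              rw [Real.mul_rpow (by norm_num) hm.le, Real.rpow_two]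
              field_simp
          _ = _ := by
              congr 1
              rw [← Real.rpow_add hm, ← Real.rpow_sub hm]
              congr 1
              ring
      have hl : Tendsto (fun m => ENNReal.ofReal
          ((2 * M + 3 * s0) ^ 2 * (4 ^ t * C) * (q m) ^ (t - 91 / 48))) atTop (𝓝 0) := by
        rw [← ENNReal.ofReal_zero]
        apply ENNReal.tendsto_ofReal
        have h2 : Tendsto (fun m => (q m) ^ (t - 91 / 48)) atTop (𝓝 0) := by
          have := hqlim.rpow_const (p := t - 91 / 48) (Or.inr (by linarith))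
          rwa [Real.zero_rpow (by linarith)] at this
        have := h2.const_mul ((2 * M + 3 * s0) ^ 2 * (4 ^ t * C))
        rwa [mul_zero] at this
      exact tendsto_of_tendsto_of_tendsto_of_le_of_le tendsto_const_nhds hl
        (fun _ => bot_le) hbound
  have hall : ∀ᵐ K : NonemptyCompacts ℂ ∂(μ : Measure (NonemptyCompacts ℂ)),
      ∀ m : ℕ, dimH ((K : Set ℂ) ∩ A) ≤ ENNReal.ofReal (91 / 48 + 1 / ((m : ℝ) + 1)) := by
    rw [ae_all_iff]
    intro m
    apply main
    have : (0 : ℝ) < 1 / ((m : ℝ) + 1) := by positivity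
    linarith
  filter_upwards [hall] with K hK
  have h1 : Tendsto (fun m : ℕ => ENNReal.ofReal (91 / 48 + 1 / ((m : ℝ) + 1))) atTop
      (𝓝 (ENNReal.ofReal (91 / 48))) := by
    apply ENNReal.tendsto_ofReal
    have := (tendsto_one_div_add_atTop_nhds_zero_nat (𝕜 := ℝ)).const_add (91 / 48)
    rwa [add_zero] at this
  exact ge_of_tendsto' h1 hK

/-- Points and distances on the lattice. -/
theorem dist_pt {δ : ℝ} (hδ : 0 < δ) (x y : Vtx) :
    δ * (nv (x - y) : ℝ) ≤ dist (H934E.pt δ x) (H934E.pt δ y) := by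
  rw [Complex.dist_eq]
  have h1 := Complex.abs_re_le_norm (H934E.pt δ x - H934E.pt δ y)
  have h2 := Complex.abs_im_le_norm (H934E.pt δ x - H934E.pt δ y)
  unfold H934E.pt at h1 h2 ⊢
  simp only [Complex.sub_re, Complex.sub_im] at h1 h2
  have e1 : δ * (x.1 : ℝ) - δ * (y.1 : ℝ) = δ * (((x.1 - y.1 : ℤ)) : ℝ) := by push_cast; ring
  have e2 : δ * ((x.2 : ℝ) + 1) - δ * ((y.2 : ℝ) + 1) = δ * (((x.2 - y.2 : ℤ)) : ℝ) := by
    push_cast; ring
  rw [e1, abs_mul, abs_of_pos hδ, ← Int.cast_abs] at h1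
  rw [e2, abs_mul, abs_of_pos hδ, ← Int.cast_abs] at h2
  unfold nv
  rw [Nat.cast_max]
  have e3 : (((x - y).1.natAbs : ℕ) : ℝ) = ((|x.1 - y.1| : ℤ) : ℝ) := by
    rw [Prod.fst_sub, Nat.cast_natAbs]
  have e4 : (((x - y).2.natAbs : ℕ) : ℝ) = ((|x.2 - y.2| : ℤ) : ℝ) := by
    rw [Prod.snd_sub, Nat.cast_natAbs]
  rw [e3, e4]
  rcases le_total ((|x.1 - y.1| : ℤ) : ℝ) ((|x.2 - y.2| : ℤ) : ℝ) with h | h
  · rw [max_eq_right h]; exact h2
  · rw [max_eq_left h]; exact h1

/-- From a good set of vertices to a good set of points. -/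
theorem good_of_SG {t a E : ℝ} (ht : 0 ≤ t) (ha : 0 < a) (hE : 0 < E) {r : ℕ} (hr : 1 ≤ r)
    {T : Finset Vtx} (hT : SG t a E r T) {δ δ' : ℝ} (hδ : 0 < δ) (hδδ : δ ≤ δ') {s : ℝ}
    (hs : 0 < s) (hsr : s ≤ δ * r) {K : Set ℂ} (hK : H934E.pt δ '' ↑T ⊆ K) :
    Good t δ' (2 ^ (-t) / (E / a ^ 2 * s ^ (-t))) K := by
  classical
  have hr0 : (0 : ℝ) < r := by exact_mod_cast hr
  have hsz := sz_pos hr
  have hTne : T.Nonempty := by
    rw [Finset.nonempty_iff_ne_empty]
    rintro rfl
    have := hT.1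
    rw [Finset.card_empty, Nat.cast_zero] at this
    have : 0 < a * sz r := by positivity
    linarith
  have hinj : Function.Injective (H934E.pt δ) := by
    intro x y h
    have := dist_pt hδ x y
    rw [h, dist_self] at this
    have h1 : (nv (x - y) : ℝ) ≤ 0 := by
      by_contra h2
      push Not at h2
      have := mul_pos hδ h2
      linarith
    have h2 : nv (x - y) = 0 := by
      have : nv (x - y) ≤ 0 := by exact_mod_cast h1
      omega
    have := Quad.nv_eq_zero h2
    exact sub_eq_zero.mp this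
  have hcard : (T.image (H934E.pt δ)).card = T.card := Finset.card_image_of_injective T hinj
  refine (good_of_energy (S := T.image (H934E.pt δ)) (lt_of_lt_of_le hδ hδδ) ht
    (E := E / a ^ 2 * s ^ (-t)) (by positivity) (hTne.image _)
    (by rw [Finset.coe_image]; exact hK) ?_)
  rw [Finset.sum_image (fun x _ y _ h => hinj h), hcard]
  have h1 : ∀ x ∈ T, ∑ z ∈ T.image (H934E.pt δ), (max (dist (H934E.pt δ x) z) δ') ^ (-t) ≤
      δ ^ (-t) * ∑ y ∈ T, kn t x y := by
    intro x _
    rw [Finset.sum_image (fun x _ y _ h => hinj h), Finset.mul_sum]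
    apply Finset.sum_le_sum
    intro y _
    unfold kn
    have hp : (0 : ℝ) < ((max (nv (x - y)) 1 : ℕ) : ℝ) := by
      have : 0 < max (nv (x - y)) 1 := lt_of_lt_of_le Nat.one_pos (le_max_right _ _)
      exact_mod_cast this
    rw [← Real.mul_rpow hδ.le hp.le]
    apply Real.rpow_le_rpow_of_nonpos (by positivity) _ (by linarith)
    rw [Nat.cast_max, mul_max_of_nonneg _ _ hδ.le, Nat.cast_one, mul_one]
    exact max_le_max (dist_pt hδ x y) hδδ
  refine (Finset.sum_le_sum h1).trans ?_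
  rw [← Finset.mul_sum]
  have h2 := hT.2
  unfold eng at h2
  have h3 := hT.1
  have h4 : (sz r) ^ 2 ≤ (T.card : ℝ) ^ 2 / a ^ 2 := by
    rw [le_div_iff₀ (by positivity), ← mul_pow]
    apply pow_le_pow_left₀ (by positivity)
    linarith
  have h5 : δ ^ (-t) * (r : ℝ) ^ (-t) ≤ s ^ (-t) := by
    rw [← Real.mul_rpow hδ.le hr0.le]
    exact Real.rpow_le_rpow_of_nonpos hs hsr (by linarith)
  have h6 : (0 : ℝ) < δ ^ (-t) := by positivity
  have h7 : (0 : ℝ) < (r : ℝ) ^ (-t) := by positivity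
  have h8 : (0 : ℝ) < s ^ (-t) := by positivity
  calc δ ^ (-t) * ∑ x ∈ T, ∑ y ∈ T, kn t x y ≤ δ ^ (-t) * (E * ((sz r) ^ 2 * (r : ℝ) ^ (-t))) :=
        mul_le_mul_of_nonneg_left h2 h6.le
    _ = E * (sz r) ^ 2 * (δ ^ (-t) * (r : ℝ) ^ (-t)) := by ring
    _ ≤ E * ((T.card : ℝ) ^ 2 / a ^ 2) * s ^ (-t) := by
        apply mul_le_mul (mul_le_mul_of_nonneg_left h4 hE.le) h5 (by positivity) (by positivity)
    _ = _ := by ring

end Pool.Agent.H389R2.CD
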