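import Pool.Agent.H389R2.CD.Gen
import Pool.Agent.H934R2.Expl.Final

/-!
# The cluster of the wired arc in a rectangle: one-point upper bound
-/

set_option autoImplicit false
set_option maxHeartbeats 1000000
set_option linter.unusedSimpArgs false

namespace Pool.Agent.H389R2.CD

open H974 H934E Pool.Agent.H160R2.CV MeasureTheory TopologicalSpace Filter Topology Metric Set
open Pool.Agent.H389R2.Dim
open scoped ENNReal NNReal

/-- The open cluster of the first arc (edges in `F` and wired edges), as a closed subset of the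
plane: its vertices and its edges. -/
noncomputable def cset (R : Rect) (δ : ℝ) (F : Finset Edg) : Set ℂ :=
  (pt δ '' R.clu δ F) ∪ ⋃ e ∈ {e : Edg | e ∈ (↑F ∪ R.wired δ : Set Edg) ∧ src e ∈ R.clu δ F},
    segment ℝ (pt δ (src e)) (pt δ (tgt e))

theorem cset_compact (R : Rect) (δ : ℝ) (F : Finset Edg) : IsCompact (cset R δ F) := by
  apply IsCompact.union
  · exact ((R.clu_finite δ F).image _).isCompact
  · apply Set.Finite.isCompact_biUnion
    · exact (F.finite_toSet.union (R.wired_finite δ)).subset (fun e he => he.1)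
    · intro e _
      rw [segment_eq_image]
      exact isCompact_Icc.image (by fun_prop)

theorem cset_nonempty (R : Rect) (δ : ℝ) (F : Finset Edg) : (cset R δ F).Nonempty :=
  ⟨pt δ (0, 0), Or.inl ⟨(0, 0), Reach.refl _ _, rfl⟩⟩

/-- The cluster as a nonempty compact set. -/
noncomputable def clus (R : Rect) (δ : ℝ) (F : Finset Edg) : NonemptyCompacts ℂ :=
  ⟨⟨cset R δ F, cset_compact R δ F⟩, cset_nonempty R δ F⟩

/-- The law of the cluster at mesh `δ`. -/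
noncomputable def clusLaw (R : Rect) (δ : ℝ) : ProbabilityMeasure (NonemptyCompacts ℂ) :=
  lawP (R.edges δ) (clus R δ)

theorem pt_edge {δ : ℝ} (hδ : 0 ≤ δ) (e : Edg) :
    |(pt δ (tgt e)).re - (pt δ (src e)).re| ≤ δ ∧ |(pt δ (tgt e)).im - (pt δ (src e)).im| ≤ δ := by
  obtain ⟨x, y, _ | _⟩ := e
  · simp only [tgt_false, src_mk, pt]
    constructor
    · simp [hδ]
    · push_cast
      rw [show δ * ((y : ℝ) + 1 + 1) - δ * ((y : ℝ) + 1) = δ by ring, abs_of_nonneg hδ]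
  · simp only [tgt_true, src_mk, pt]
    constructor
    · push_cast
      rw [show δ * ((x : ℝ) + 1) - δ * (x : ℝ) = δ by ring, abs_of_nonneg hδ]
    · simp [hδ]

/-- Every point of the cluster is close to a vertex of the cluster. -/
theorem cset_near (R : Rect) {δ : ℝ} (hδ : 0 ≤ δ) {F : Finset Edg} {z : ℂ} (hz : z ∈ cset R δ F) :
    ∃ v ∈ R.clu δ F, |z.re - (pt δ v).re| ≤ δ ∧ |z.im - (pt δ v).im| ≤ δ := by
  rcases hz with ⟨v, hv, rfl⟩ | hz
  · exact ⟨v, hv, by simp [hδ], by simp [hδ]⟩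
  · rw [Set.mem_iUnion₂] at hz
    obtain ⟨e, ⟨_, he⟩, h2⟩ := hz
    refine ⟨src e, he, ?_⟩
    rw [segment_eq_image] at h2
    obtain ⟨θ, ⟨h3, h4⟩, rfl⟩ := h2
    obtain ⟨h5, h6⟩ := pt_edge hδ e
    simp only [Complex.add_re, Complex.add_im, Complex.real_smul, Complex.mul_re, Complex.mul_im,
      Complex.sub_re, Complex.sub_im, Complex.one_re, Complex.one_im, Complex.ofReal_re,
      Complex.ofReal_im, zero_mul, sub_zero, add_zero, zero_add]
    constructor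
    · have e1 : (1 - θ) * (pt δ (src e)).re + θ * (pt δ (tgt e)).re - (pt δ (src e)).re =
        θ * ((pt δ (tgt e)).re - (pt δ (src e)).re) := by ring
      rw [e1, abs_mul, abs_of_nonneg h3]
      calc θ * |(pt δ (tgt e)).re - (pt δ (src e)).re| ≤ 1 * δ :=
            mul_le_mul h4 h5 (abs_nonneg _) (by norm_num)
        _ = δ := one_mul _
    · have e1 : (1 - θ) * (pt δ (src e)).im + θ * (pt δ (tgt e)).im - (pt δ (src e)).im =
        θ * ((pt δ (tgt e)).im - (pt δ (src e)).im) := by ring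
      rw [e1, abs_mul, abs_of_nonneg h3]
      calc θ * |(pt δ (tgt e)).im - (pt δ (src e)).im| ≤ 1 * δ :=
            mul_le_mul h4 h6 (abs_nonneg _) (by norm_num)
        _ = δ := one_mul _

/-- Box-to-boundary probabilities. -/
theorem barm_le (hAr : ArS) : ∃ C : ℝ, 0 < C ∧ ∀ r n : ℕ, 1 ≤ r → 3 * r ≤ n →
    barm (1 / 2) r n ≤ C * ((r : ℝ) / n) ^ ((5 : ℝ) / 48) := by
  obtain ⟨c0, C0, hc0, hC0, har⟩ := hAr
  refine ⟨2 ^ 188 * (C0 / c0) * 3 ^ ((5 : ℝ) / 48), by positivity, fun r n hr hrn => ?_⟩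
  have h1 := arm_glue (p := 1 / 2) le_rfl (by norm_num) (by omega : 0 < r) hrn
  have h2 := (har n (by omega)).2
  have h3 := (har (3 * r) (by omega)).1
  have hr0 : (0 : ℝ) < r := by exact_mod_cast hr
  have hn0 : (0 : ℝ) < n := by
    have : 0 < n := by omega
    exact_mod_cast this
  have h4 : (1 / 2 : ℝ) ^ 188 * (ar (3 * r) * barm (1 / 2) r n) ≤ ar n := h1
  have hb := barm_nonneg (q := 1 / 2) (by norm_num) (by norm_num) r n
  have h5 : c0 * ((3 * r : ℕ) : ℝ) ^ (-(5 / 48 : ℝ)) * barm (1 / 2) r n ≤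
      2 ^ 188 * (C0 * (n : ℝ) ^ (-(5 / 48 : ℝ))) := by
    calc c0 * ((3 * r : ℕ) : ℝ) ^ (-(5 / 48 : ℝ)) * barm (1 / 2) r n
        ≤ ar (3 * r) * barm (1 / 2) r n := mul_le_mul_of_nonneg_right h3 hb
      _ = 2 ^ 188 * ((1 / 2 : ℝ) ^ 188 * (ar (3 * r) * barm (1 / 2) r n)) := by
          rw [← mul_assoc, ← mul_pow]; norm_num
      _ ≤ 2 ^ 188 * (C0 * (n : ℝ) ^ (-(5 / 48 : ℝ))) :=
          mul_le_mul_of_nonneg_left (h4.trans h2) (by positivity)
  have e1 : ((3 * r : ℕ) : ℝ) ^ (-(5 / 48 : ℝ)) = (((3 * r : ℕ) : ℝ) ^ ((5 : ℝ) / 48))⁻¹ :=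
    Real.rpow_neg (by positivity) _
  have e2 : (n : ℝ) ^ (-(5 / 48 : ℝ)) = ((n : ℝ) ^ ((5 : ℝ) / 48))⁻¹ :=
    Real.rpow_neg hn0.le _
  have e3 : ((3 * r : ℕ) : ℝ) ^ ((5 : ℝ) / 48) = 3 ^ ((5 : ℝ) / 48) * (r : ℝ) ^ ((5 : ℝ) / 48) := by
    push_cast
    exact Real.mul_rpow (by norm_num) hr0.le
  have e4 : ((r : ℝ) / n) ^ ((5 : ℝ) / 48) = (r : ℝ) ^ ((5 : ℝ) / 48) / (n : ℝ) ^ ((5 : ℝ) / 48) :=
    Real.div_rpow hr0.le hn0.le _
  rw [e1, e2, e3] at h5
  rw [e4]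
  have p1 : (0 : ℝ) < 3 ^ ((5 : ℝ) / 48) := by positivity
  have p2 : (0 : ℝ) < (r : ℝ) ^ ((5 : ℝ) / 48) := by positivity
  have p3 : (0 : ℝ) < (n : ℝ) ^ ((5 : ℝ) / 48) := by positivity
  calc barm (1 / 2) r n = (c0 * (3 ^ ((5 : ℝ) / 48) * (r : ℝ) ^ ((5 : ℝ) / 48))⁻¹ *
        barm (1 / 2) r n) * ((3 ^ ((5 : ℝ) / 48) * (r : ℝ) ^ ((5 : ℝ) / 48)) / c0) := by
        field_simp
    _ ≤ (2 ^ 188 * (C0 * ((n : ℝ) ^ ((5 : ℝ) / 48))⁻¹)) *
        ((3 ^ ((5 : ℝ) / 48) * (r : ℝ) ^ ((5 : ℝ) / 48)) / c0) :=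
        mul_le_mul_of_nonneg_right h5 (by positivity)
    _ = _ := by field_simp

/-- A connection from a small box to outside of a large one. -/
def Ex1 (c : Vtx) (r n : ℕ) (F : Finset Edg) : Prop := BArm r n ((trl (-c.1) (-c.2)).mp F)

theorem pr_Ex1 (S : Finset Edg) (c : Vtx) (r n : ℕ) : Pr P S (Ex1 c r n) ≤ barm (1 / 2) r n :=
  Pr_shift_le (q := 1 / 2) (by norm_num) (by norm_num) (trl (-c.1) (-c.2)) S
    (fun F G h hF => hF.mono h) (fun F => BArm_local (Finset.Subset.refl _))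

theorem Ex1_of_reach {F : Finset Edg} {A : Set Edg} {c : Vtx} {r n : ℕ} (hrn : r ≤ n)
    (hA : ∀ e ∈ A, e ∉ RE (c.1 - n) (c.1 + n) (c.2 - n) (c.2 + n)) {u v : Vtx}
    (hu : inR (c.1 - r) (c.1 + r) (c.2 - r) (c.2 + r) u)
    (hv : v.1 ≤ c.1 - n ∨ c.1 + n ≤ v.1 ∨ v.2 ≤ c.2 - n ∨ c.2 + n ≤ v.2)
    (h : Reach (↑F ∪ A) u v) : Ex1 c r n F := by
  have hrn' : (r : ℤ) ≤ n := by exact_mod_cast hrn
  obtain ⟨w, k1, k2, k3⟩ := first_exit (a := c.1 - n) (b := c.1 + n) (c := c.2 - n)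
    (d := c.2 + n) (u := u) (v := v) (by unfold inR at hu ⊢; omega) h hv
  have k4 : Reach (↑F ∩ ↑(RE (c.1 - n) (c.1 + n) (c.2 - n) (c.2 + n))) u w := by
    refine k3.mono ?_
    rintro e ⟨he | he, he2⟩
    · exact ⟨he, he2⟩
    · exact absurd (Finset.mem_coe.mp he2) (hA e he)
  have h1 := (trl (-c.1) (-c.2)).reach k4
  rw [LSym.image_inter, trl_RE] at h1
  obtain ⟨u1, u2⟩ := u
  obtain ⟨w1, w2⟩ := w
  rw [trl_ψ, trl_ψ] at h1
  refine ⟨(u1 + -c.1, u2 + -c.2), (w1 + -c.1, w2 + -c.2), ?_, ?_, ?_⟩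
  rotate_left 2
  · have e1 : RE (c.1 - n + -c.1) (c.1 + n + -c.1) (c.2 - n + -c.2) (c.2 + n + -c.2) = boxE n := by
      unfold boxE
      congr 1 <;> ring
    rw [e1] at h1
    exact h1
  · unfold inR at hu ⊢
    simp only at hu ⊢
    omega
  · unfold onB inR
    unfold inR at k1
    simp only at k1 k2 ⊢
    omega

/-- **One-point upper bound.** -/
theorem hit_le (hAr : ArS) : ∃ C : ℝ, 0 < C ∧ ∀ (R : Rect) (z : ℂ) (ρ s δ : ℝ), 0 < s →
    16 * s ≤ ρ → ρ ≤ z.re + R.A → ρ ≤ z.im → ρ ≤ R.H - z.im → ρ ≤ R.B - z.re → 0 < δ →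
    16 * δ ≤ s →
    Pr P (R.edges δ) (fun F => (cset R δ F ∩ sq z s).Nonempty) ≤ C * (s / ρ) ^ ((5 : ℝ) / 48) := by
  obtain ⟨C, hC, hb⟩ := barm_le hAr
  refine ⟨C * 4, by positivity, ?_⟩
  intro R z ρ s δ hs hsρ h1 h2 h3 h4 hδ hδs
  have hρ : 0 < ρ := by linarith
  set c : Vtx := (⌊z.re / δ⌋, ⌊z.im / δ⌋ - 1) with hc
  set r : ℕ := ⌈s / δ⌉₊ + 2 with hr
  set n : ℕ := ⌊ρ / δ⌋₊ - 3 with hn
  have q1 : 16 ≤ s / δ := by rw [le_div_iff₀ hδ]; exact hδs
  have q2 : 16 * (s / δ) ≤ ρ / δ := by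
    rw [← mul_div_assoc]; exact div_le_div_of_nonneg_right hsρ hδ.le
  have r1 : (⌈s / δ⌉₊ : ℝ) < s / δ + 1 := Nat.ceil_lt_add_one (by positivity)
  have r2 : s / δ ≤ (⌈s / δ⌉₊ : ℝ) := Nat.le_ceil _
  have n1 : (⌊ρ / δ⌋₊ : ℝ) ≤ ρ / δ := Nat.floor_le (by positivity)
  have n2 : ρ / δ < (⌊ρ / δ⌋₊ : ℝ) + 1 := Nat.lt_floor_add_one _
  have hn3 : 3 ≤ ⌊ρ / δ⌋₊ := by
    rw [Nat.le_floor_iff (by positivity)]
    push_cast
    linarith
  have nR : (n : ℝ) = (⌊ρ / δ⌋₊ : ℝ) - 3 := by rw [hn, Nat.cast_sub hn3]; norm_num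
  have rR : (r : ℝ) = (⌈s / δ⌉₊ : ℝ) + 2 := by rw [hr]; push_cast; ring
  have hrn : 3 * r ≤ n := by
    have : ((3 * r : ℕ) : ℝ) ≤ (n : ℝ) := by
      push_cast
      rw [nR, rR]
      linarith
    exact_mod_cast this
  have f1 : (⌊z.re / δ⌋ : ℝ) ≤ z.re / δ := Int.floor_le _
  have f2 : z.re / δ < (⌊z.re / δ⌋ : ℝ) + 1 := Int.lt_floor_add_one _
  have f3 : (⌊z.im / δ⌋ : ℝ) ≤ z.im / δ := Int.floor_le _
  have f4 : z.im / δ < (⌊z.im / δ⌋ : ℝ) + 1 := Int.lt_floor_add_one _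
  have d1 : ρ / δ ≤ z.re / δ + R.A / δ := by
    rw [← add_div]; exact div_le_div_of_nonneg_right h1 hδ.le
  have d2 : ρ / δ ≤ z.im / δ := div_le_div_of_nonneg_right h2 hδ.le
  have d3 : ρ / δ ≤ R.H / δ - z.im / δ := by
    rw [← sub_div]; exact div_le_div_of_nonneg_right h3 hδ.le
  -- the event
  have hev : ∀ F : Finset Edg, (cset R δ F ∩ sq z s).Nonempty → Ex1 c r n F := by
    rintro F ⟨w, hw1, hw2, hw3⟩
    obtain ⟨v, hv, hv1, hv2⟩ := cset_near R hδ.le hw1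
    unfold pt at hv1 hv2
    simp only at hv1 hv2
    rw [abs_le] at hv1 hv2
    rw [abs_lt] at hw2 hw3
    have g1 : δ * |(v.1 : ℝ) - z.re / δ| ≤ s + δ := by
      rw [← abs_of_pos hδ, ← abs_mul, abs_of_pos hδ, mul_sub, mul_div_cancel₀ _ hδ.ne', abs_le]
      constructor <;> linarith
    have g2 : δ * |(v.2 : ℝ) + 1 - z.im / δ| ≤ s + δ := by
      rw [← abs_of_pos hδ, ← abs_mul, abs_of_pos hδ, mul_sub, mul_div_cancel₀ _ hδ.ne', abs_le]
      constructor <;> linarith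
    have g3 : |(v.1 : ℝ) - z.re / δ| ≤ s / δ + 1 := by
      rw [show s / δ + 1 = (s + δ) / δ by field_simp, le_div_iff₀ hδ, mul_comm]; exact g1
    have g4 : |(v.2 : ℝ) + 1 - z.im / δ| ≤ s / δ + 1 := by
      rw [show s / δ + 1 = (s + δ) / δ by field_simp, le_div_iff₀ hδ, mul_comm]; exact g2
    rw [abs_le] at g3 g4
    refine Ex1_of_reach (A := R.wired δ) (v := (0, 0)) (u := v) (by omega) ?_ ?_ ?_ hv.symm
    · -- wired edges are outside
      rintro ⟨x, y, b⟩ he hE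
      unfold Rect.wired at he
      simp only [Set.mem_ofPred_eq] at he
      have u1 : (c.1 : ℝ) - n ≥ -(R.A / δ) + 2 := by
        rw [nR, hc]; simp only; linarith
      have u2 : (c.2 : ℝ) - n ≥ 1 := by
        rw [nR, hc]; simp only; push_cast; linarith
      have u3 : (c.2 : ℝ) + n ≤ R.H / δ - 4 := by
        rw [nR, hc]; simp only; push_cast; linarith
      have hx0 : (R.x0 δ : ℝ) ≤ -(R.A / δ) + 1 := by
        unfold Rect.x0
        push_cast
        linarith [Int.floor_le (-(R.A / δ))]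
      have hy1 : R.H / δ - 2 ≤ (R.y1 δ : ℝ) := by
        unfold Rect.y1
        push_cast
        linarith [Int.le_ceil (R.H / δ)]
      have v1 : R.x0 δ < c.1 - n := by
        have : (R.x0 δ : ℝ) < ((c.1 - n : ℤ) : ℝ) := by push_cast; linarith
        exact_mod_cast this
      have v2 : 0 < c.2 - n := by
        have : (0 : ℝ) < ((c.2 - n : ℤ) : ℝ) := by push_cast; linarith
        exact_mod_cast this
      have v3 : c.2 + n < R.y1 δ := by
        have : ((c.2 + n : ℤ) : ℝ) < (R.y1 δ : ℝ) := by push_cast; linarith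
        exact_mod_cast this
      cases b
      · rw [mem_RE_false] at hE
        rcases he with ⟨h, _⟩ | h | ⟨h, _⟩
        · exact absurd h (by simp)
        · omega
        · exact absurd h (by simp)
      · rw [mem_RE_true] at hE
        rcases he with h | ⟨h, _⟩ | h
        · omega
        · exact absurd h (by simp)
        · omega
    · have k1 : ((c.1 - r : ℤ) : ℝ) ≤ v.1 := by
        push_cast; rw [rR, hc]; simp only; linarith
      have k2 : (v.1 : ℝ) ≤ ((c.1 + r : ℤ) : ℝ) := by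
        push_cast; rw [rR, hc]; simp only; linarith
      have k3 : ((c.2 - r : ℤ) : ℝ) ≤ v.2 := by
        push_cast; rw [rR, hc]; simp only; push_cast; linarith
      have k4 : (v.2 : ℝ) ≤ ((c.2 + r : ℤ) : ℝ) := by
        push_cast; rw [rR, hc]; simp only; push_cast; linarith
      exact ⟨⟨by exact_mod_cast k1, by exact_mod_cast k2⟩, ⟨by exact_mod_cast k3,
        by exact_mod_cast k4⟩⟩
    · right; right; left
      have : (0 : ℝ) ≤ ((c.2 - n : ℤ) : ℝ) := by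
        push_cast; rw [nR, hc]; simp only; push_cast; linarith
      exact_mod_cast this
  have hP : Pr P (R.edges δ) (fun F => (cset R δ F ∩ sq z s).Nonempty) ≤ barm (1 / 2) r n :=
    (Pr_mono w_ok (fun F _ h => hev F h)).trans (pr_Ex1 _ c r n)
  refine hP.trans ((hb r n (by omega) hrn).trans ?_)
  have hn0 : (0 : ℝ) < n := by rw [nR]; linarith
  have hr0 : (0 : ℝ) < r := by rw [rR]; linarith
  have e1 : (r : ℝ) / n ≤ 4 * (s / ρ) := by
    rw [div_le_iff₀ hn0]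
    have e2 : 4 * (s / ρ) * n = 4 * ((s / δ) / (ρ / δ)) * n := by
      field_simp
    rw [e2]
    have e3 : (0 : ℝ) < ρ / δ := by positivity
    have e4 : (ρ / δ) / 2 ≤ n := by rw [nR]; linarith
    have e5 : 4 * ((s / δ) / (ρ / δ)) * ((ρ / δ) / 2) = 2 * (s / δ) := by field_simp; ring
    have e6 : 4 * ((s / δ) / (ρ / δ)) * ((ρ / δ) / 2) ≤ 4 * ((s / δ) / (ρ / δ)) * n :=
      mul_le_mul_of_nonneg_left e4 (by positivity)
    rw [rR]
    linarith
  have e2 : ((r : ℝ) / n) ^ ((5 : ℝ) / 48) ≤ 4 * (s / ρ) ^ ((5 : ℝ) / 48) := by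
    calc ((r : ℝ) / n) ^ ((5 : ℝ) / 48) ≤ (4 * (s / ρ)) ^ ((5 : ℝ) / 48) :=
          Real.rpow_le_rpow (by positivity) e1 (by norm_num)
      _ = 4 ^ ((5 : ℝ) / 48) * (s / ρ) ^ ((5 : ℝ) / 48) :=
          Real.mul_rpow (by norm_num) (by positivity)
      _ ≤ 4 * (s / ρ) ^ ((5 : ℝ) / 48) := by
          apply mul_le_mul_of_nonneg_right _ (by positivity)
          calc (4 : ℝ) ^ ((5 : ℝ) / 48) ≤ 4 ^ (1 : ℝ) :=
                Real.rpow_le_rpow_of_exponent_le (by norm_num) (by norm_num)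
            _ = 4 := Real.rpow_one _
  calc C * ((r : ℝ) / n) ^ ((5 : ℝ) / 48) ≤ C * (4 * (s / ρ) ^ ((5 : ℝ) / 48)) :=
        mul_le_mul_of_nonneg_left e2 hC.le
    _ = _ := by ring

end Pool.Agent.H389R2.CD
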