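import Pool.Agent.H389R2.CD.Wired

/-!
# The cluster of the wired arc: lower bound for the dimension near the arc
-/

set_option autoImplicit false
set_option maxHeartbeats 1000000
set_option linter.unusedSimpArgs false

namespace Pool.Agent.H389R2.CD

open H974 H934E Pool.Agent.H160R2.CV MeasureTheory TopologicalSpace Filter Topology Metric Set
open Pool.Agent.H389R2.Dim
open scoped ENNReal NNReal

/-- The closed square of radius `s` around `z`. -/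
def csq (z : ℂ) (s : ℝ) : Set ℂ := {w | |w.re - z.re| ≤ s ∧ |w.im - z.im| ≤ s}

theorem isClosed_csq (z : ℂ) (s : ℝ) : IsClosed (csq z s) := by
  have c1 : Continuous (fun w : ℂ => |w.re - z.re|) := by fun_prop
  have c2 : Continuous (fun w : ℂ => |w.im - z.im|) := by fun_prop
  exact (isClosed_le c1 continuous_const).inter (isClosed_le c2 continuous_const)

theorem clusLaw_apply (R : Rect) (δ : ℝ) {G : Set (NonemptyCompacts ℂ)} (hG : MeasurableSet G) :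
    (clusLaw R δ : Measure (NonemptyCompacts ℂ)) G =
      ENNReal.ofReal (Pr P (R.edges δ) (fun F => clus R δ F ∈ G)) := lawP_apply _ _ hG

/-- A chart of a side: at mesh `δ` around the boundary point `w`, at scale `ρ`. -/
def SideChart (R : Rect) (δ : ℝ) (w : ℂ) (ρ : ℝ) (h : LSym) (X : ℤ) : Prop :=
  Iso h ∧
  (∀ r : ℕ, 12 * r * δ ≤ 2 * ρ → ∀ e, h.φ e ∈ RE X (X + (⌊2 * ρ / δ⌋ - 1)) 0 (12 * r) →
    e ∈ R.edges δ) ∧
  (∀ u : Vtx, (h.ψ u).2 = 0 → X ≤ (h.ψ u).1 → (h.ψ u).1 ≤ X + (⌊2 * ρ / δ⌋ - 1) →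
    Reach (R.wired δ) (0, 0) u) ∧
  (∀ v : Vtx, X ≤ (h.ψ v).1 → (h.ψ v).1 ≤ X + (⌊2 * ρ / δ⌋ - 1) → 0 ≤ (h.ψ v).2 →
    δ * (h.ψ v).2 ≤ 2 * ρ → pt δ v ∈ csq w (3 * ρ))

section

variable (hAr : ArS) (R : Rect) {δ : ℕ → ℝ} (hδ : ∀ i, 0 < δ i) (hlim : Tendsto δ atTop (𝓝 0))
  {μ : ProbabilityMeasure (NonemptyCompacts ℂ)}
  (hμ : Tendsto (fun i => clusLaw R (δ i)) atTop (𝓝 μ))

include hAr hδ hlim hμ

theorem lower_chart_t {t : ℝ} (ht1 : 1 ≤ t) (ht : t < 91 / 48) (w : ℂ) {ρ : ℝ} (hρ : 0 < ρ)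
    (ch : ∀ᶠ i in atTop, ∃ (h : LSym) (X : ℤ), SideChart R (δ i) w ρ h X) :
    ∀ᵐ K : NonemptyCompacts ℂ ∂(μ : Measure (NonemptyCompacts ℂ)),
      ENNReal.ofReal t ≤ dimH ((K : Set ℂ) ∩ csq w (3 * ρ)) := by
  obtain ⟨p, a, E, hp, ha, hE, hGB⟩ := pr_GB hAr ht1 ht
  have hp1 : p ≤ 1 := (hGB 1 le_rfl _ (Finset.Subset.refl _)).trans (Pr_le_one w_ok _ _)
  have ht0 : 0 < t := by linarith
  have key := lower_inter (X := ℂ) ht0 hμ (isClosed_csq w (3 * ρ)) (V := univ) isOpen_univ ?_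
  · filter_upwards [key] with K hK
    exact hK (Set.mem_univ _)
  intro ε hε
  -- number of boxes
  obtain ⟨N0, hN0⟩ : ∃ N0 : ℕ, ENNReal.ofReal ((1 - p) ^ N0) ≤ ε := by
    have h1 : Tendsto (fun n : ℕ => ENNReal.ofReal ((1 - p) ^ n)) atTop (𝓝 0) := by
      rw [← ENNReal.ofReal_zero]
      exact ENNReal.tendsto_ofReal
        (tendsto_pow_atTop_nhds_zero_of_lt_one (by linarith) (by linarith))
    exact ((h1.eventually_lt_const hε).exists).imp (fun n hn => hn.le)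
  set N : ℕ := N0 + 1 with hN
  have hNe : ENNReal.ofReal ((1 - p) ^ N) ≤ ε := by
    refine le_trans (ENNReal.ofReal_le_ofReal ?_) hN0
    exact pow_le_pow_of_le_one (by linarith) (by linarith) (by omega)
  have hNpos : (0 : ℝ) < N := by rw [hN]; positivity
  set s : ℝ := ρ / (14 * N) with hs
  have hs0 : 0 < s := by positivity
  refine ⟨2 ^ (-t) / (E / a ^ 2 * s ^ (-t)), by positivity, ?_⟩
  intro δ' hδ'
  apply Eventually.frequently
  have hpos : 0 < min δ' (min (ρ / (14 * N)) (ρ / (7 * (N + 3)))) :=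
    lt_min hδ' (lt_min (by positivity) (by positivity))
  filter_upwards [ch, hlim.eventually_lt_const hpos] with i hi hi2
  obtain ⟨h, X, hI, hS, hW, hpos'⟩ := hi
  simp only [lt_min_iff] at hi2
  obtain ⟨i1, i2, i3⟩ := hi2
  have hδi := hδ i
  set r : ℕ := ⌊ρ / (7 * N * δ i)⌋₊ with hr
  have q0 : 2 ≤ ρ / (7 * N * δ i) := by
    rw [le_div_iff₀ (by positivity)]
    rw [lt_div_iff₀ (by positivity)] at i2
    linarith
  have q1 : (r : ℝ) ≤ ρ / (7 * N * δ i) := Nat.floor_le (by positivity)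
  have q2 : ρ / (7 * N * δ i) < (r : ℝ) + 1 := Nat.lt_floor_add_one _
  have hr1 : 1 ≤ r := by
    have : (0 : ℝ) < r := by linarith
    exact_mod_cast this
  have q3 : 12 * r * δ i ≤ 2 * ρ := by
    have h1 : (r : ℝ) * (7 * N * δ i) ≤ ρ := (le_div_iff₀ (by positivity)).mp q1
    have h2 : (1 : ℝ) ≤ N := by rw [hN]; push_cast; linarith [(Nat.cast_nonneg N0 : (0:ℝ) ≤ N0)]
    have h3 : (r : ℝ) * δ i * 7 ≤ (r : ℝ) * δ i * 7 * N := by
      have : (0 : ℝ) ≤ (r : ℝ) * δ i * 7 := by positivity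
      nlinarith
    nlinarith
  have q4 : (N : ℤ) * (12 * r + 1) ≤ ⌊2 * ρ / δ i⌋ - 1 := by
    rw [le_sub_iff_add_le, Int.le_floor]
    push_cast
    rw [le_div_iff₀ hδi]
    have h1 : (r : ℝ) * (7 * N * δ i) ≤ ρ := (le_div_iff₀ (by positivity)).mp q1
    rw [lt_div_iff₀ (by positivity)] at i3
    nlinarith
  have hst := strip (hGB r hr1) R (δ i) h hI X (⌊2 * ρ / δ i⌋ - 1) N q4 (hS r q3) hW
  have hmeas : MeasurableSet {K : NonemptyCompacts ℂ | K ∈ (univ : Set (NonemptyCompacts ℂ)) ∧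
      ¬ Good t δ' (2 ^ (-t) / (E / a ^ 2 * s ^ (-t))) ((K : Set ℂ) ∩ csq w (3 * ρ))} := by
    apply IsOpen.measurableSet
    exact isOpen_univ.inter (isClosed_good_inter t δ' _ (isClosed_csq w (3 * ρ))).isOpen_compl
  rw [clusLaw_apply R (δ i) hmeas]
  refine le_trans (ENNReal.ofReal_le_ofReal ?_) hNe
  refine le_trans (Pr_mono w_ok ?_) hst
  rintro F _ ⟨_, hbad⟩ ⟨T, hT1, hT2⟩
  apply hbad
  refine good_of_SG ht0.le ha hE hr1 hT1 hδi i1.le hs0 ?_ ?_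
  · rw [hs, div_le_iff₀ (by positivity)]
    have h1 : ρ < ((r : ℝ) + 1) * (7 * N * δ i) := (div_lt_iff₀ (by positivity)).mp q2
    have h2 : (1 : ℝ) ≤ r := by exact_mod_cast hr1
    have h3 : ((r : ℝ) + 1) * (7 * N * δ i) ≤ (2 * r) * (7 * N * δ i) :=
      mul_le_mul_of_nonneg_right (by linarith) (by positivity)
    nlinarith
  · rintro _ ⟨x, hx, rfl⟩
    obtain ⟨h1, h2, h3⟩ := hT2 x hx
    refine ⟨Or.inl ⟨x, h1, rfl⟩, hpos' x h2.1 h2.2 h3.1 ?_⟩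
    have h4 : ((h.ψ x).2 : ℝ) ≤ 12 * r := by exact_mod_cast h3.2
    calc δ i * ((h.ψ x).2 : ℝ) ≤ δ i * (12 * r) := mul_le_mul_of_nonneg_left h4 hδi.le
      _ ≤ 2 * ρ := by linarith

theorem lower_chart (w : ℂ) {ρ : ℝ} (hρ : 0 < ρ)
    (ch : ∀ᶠ i in atTop, ∃ (h : LSym) (X : ℤ), SideChart R (δ i) w ρ h X) :
    ∀ᵐ K : NonemptyCompacts ℂ ∂(μ : Measure (NonemptyCompacts ℂ)),
      ENNReal.ofReal (91 / 48) ≤ dimH ((K : Set ℂ) ∩ csq w (3 * ρ)) := by
  have h1 : ∀ m : ℕ, ∀ᵐ K : NonemptyCompacts ℂ ∂(μ : Measure (NonemptyCompacts ℂ)),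
      ENNReal.ofReal (91 / 48 - 1 / 2 * (1 / ((m : ℝ) + 1))) ≤
        dimH ((K : Set ℂ) ∩ csq w (3 * ρ)) := by
    intro m
    have h2 : (0 : ℝ) < 1 / ((m : ℝ) + 1) := by positivity
    have h3 : 1 / ((m : ℝ) + 1) ≤ 1 := by
      rw [div_le_one (by positivity)]
      linarith [(Nat.cast_nonneg m : (0 : ℝ) ≤ m)]
    exact lower_chart_t hAr R hδ hlim hμ (by linarith) (by linarith) w hρ ch
  filter_upwards [ae_all_iff.mpr h1] with K hK
  have h2 : Tendsto (fun m : ℕ => ENNReal.ofReal (91 / 48 - 1 / 2 * (1 / ((m : ℝ) + 1)))) atTop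
      (𝓝 (ENNReal.ofReal (91 / 48))) := by
    apply ENNReal.tendsto_ofReal
    have := ((tendsto_one_div_add_atTop_nhds_zero_nat (𝕜 := ℝ)).const_mul (1 / 2)).const_sub
      (91 / 48)
    simpa using this
  exact le_of_tendsto' h2 hK

/-- The bottom side. -/
theorem lower_bottom (w ρ : ℝ) (hρ : 0 < ρ) (h1 : -R.A < w - ρ) (h2 : w + ρ < 0)
    (h3 : 3 * ρ ≤ R.H) :
    ∀ᵐ K : NonemptyCompacts ℂ ∂(μ : Measure (NonemptyCompacts ℂ)),
      ENNReal.ofReal (91 / 48) ≤ dimH ((K : Set ℂ) ∩ csq (w : ℂ) (3 * ρ)) := by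
  apply lower_chart hAr R hδ hlim hμ (w : ℂ) hρ
  have hpos : 0 < min (ρ / 4) (min (w - ρ + R.A) (-(w + ρ))) :=
    lt_min (by positivity) (lt_min (by linarith) (by linarith))
  filter_upwards [hlim.eventually_lt_const hpos] with i hi
  simp only [lt_min_iff] at hi
  obtain ⟨i1, i2, i3⟩ := hi
  have hδi := hδ i
  set d := δ i with hd
  -- columns
  have c1 : (w - ρ) / d ≤ (⌈(w - ρ) / d⌉ : ℝ) := Int.le_ceil _
  have c2 : (⌈(w - ρ) / d⌉ : ℝ) < (w - ρ) / d + 1 := Int.ceil_lt_add_one _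
  have c3 : (⌊2 * ρ / d⌋ : ℝ) ≤ 2 * ρ / d := Int.floor_le _
  have c4 : (w - ρ) / d + 2 * ρ / d = (w + ρ) / d := by ring
  have lt : ∀ x : ℤ, ⌈(w - ρ) / d⌉ ≤ x → w - ρ ≤ d * x := by
    intro x hx
    have : (⌈(w - ρ) / d⌉ : ℝ) ≤ x := by exact_mod_cast hx
    have h4 : (w - ρ) / d ≤ x := c1.trans this
    rw [div_le_iff₀ hδi] at h4
    linarith
  have rt : ∀ x : ℤ, x ≤ ⌈(w - ρ) / d⌉ + (⌊2 * ρ / d⌋ - 1) → d * x ≤ w + ρ := by
    intro x hx
    have : (x : ℝ) ≤ (⌈(w - ρ) / d⌉ : ℝ) + ((⌊2 * ρ / d⌋ : ℝ) - 1) := by exact_mod_cast hx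
    have h4 : (x : ℝ) ≤ (w + ρ) / d := by linarith
    rw [le_div_iff₀ hδi] at h4
    linarith
  have x0le : ∀ x : ℤ, -R.A < d * x → R.x0 d ≤ x := by
    intro x hx
    unfold Rect.x0
    rw [Int.add_one_le_iff, Int.floor_lt, ← neg_div, div_lt_iff₀ hδi]
    linarith
  have x1ge : ∀ x : ℤ, d * x < R.B → x ≤ R.x1 d := by
    intro x hx
    unfold Rect.x1
    rw [Int.le_sub_one_iff, Int.lt_ceil, lt_div_iff₀ hδi]
    linarith
  have y1ge : ∀ y : ℤ, d * (y + 1) < R.H → y ≤ R.y1 d := by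
    intro y hy
    unfold Rect.y1
    rw [show (y ≤ ⌈R.H / d⌉ - 2) ↔ y + 1 < ⌈R.H / d⌉ from by omega, Int.lt_ceil,
      lt_div_iff₀ hδi]
    push_cast
    linarith
  have hB := R.hB
  refine ⟨trl 0 0, ⌈(w - ρ) / d⌉, Iso_trl _ _, ?_, ?_, ?_⟩
  · intro r hr e he
    rw [R.edges_eq]
    have hy : ∀ y : ℤ, y ≤ 12 * r → y ≤ R.y1 d := by
      intro y hy
      apply y1ge
      have : (y : ℝ) ≤ 12 * r := by exact_mod_cast hy
      nlinarith
    have hy' := hy (12 * r) le_rfl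
    have l1 : R.x0 d ≤ ⌈(w - ρ) / d⌉ := x0le _ (by linarith [lt _ le_rfl])
    have l2 : ⌈(w - ρ) / d⌉ + (⌊2 * ρ / d⌋ - 1) ≤ R.x1 d := x1ge _ (by linarith [rt _ le_rfl])
    obtain ⟨x, y, b⟩ := e
    rw [trl_φ] at he
    cases b
    · rw [mem_RE_false] at he ⊢
      omega
    · rw [mem_RE_true] at he ⊢
      omega
  · rintro ⟨x, y⟩ k1 k2 k3
    rw [trl_ψ] at k1 k2 k3
    simp only [add_zero] at k1 k2 k3
    subst k1
    apply wired_bot
    · exact x0le _ (by linarith [lt x k2])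
    · have h4 := rt x k3
      have h5 : d * (x : ℝ) < 0 := by linarith
      have h6 : (x : ℝ) < 0 := by
        by_contra h7
        push Not at h7
        have := mul_nonneg hδi.le h7
        linarith
      have h7 : x < 0 := by exact_mod_cast h6
      omega
  · rintro ⟨x, y⟩ k1 k2 k3 k4
    rw [trl_ψ] at k1 k2 k3 k4
    simp only [add_zero] at k1 k2 k3 k4
    have l1 := lt x k1
    have l2 := rt x k2
    have l3 : (0 : ℝ) ≤ y := by exact_mod_cast k3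
    unfold csq pt
    simp only [Complex.ofReal_re, Complex.ofReal_im, sub_zero, Set.mem_ofPred_eq]
    rw [abs_le, abs_le]
    refine ⟨⟨by linarith, by linarith⟩, ⟨by nlinarith, by nlinarith⟩⟩

/-- The left side. -/
theorem lower_left (w ρ : ℝ) (hρ : 0 < ρ) (h1 : 0 < w - ρ) (h2 : w + ρ < R.H)
    (h3 : 3 * ρ ≤ R.A) :
    ∀ᵐ K : NonemptyCompacts ℂ ∂(μ : Measure (NonemptyCompacts ℂ)),
      ENNReal.ofReal (91 / 48) ≤ dimH ((K : Set ℂ) ∩ csq (⟨-R.A, w⟩ : ℂ) (3 * ρ)) := by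
  apply lower_chart hAr R hδ hlim hμ (⟨-R.A, w⟩ : ℂ) hρ
  have hpos : 0 < min (ρ / 4) (min (w - ρ) (R.H - (w + ρ))) :=
    lt_min (by positivity) (lt_min (by linarith) (by linarith))
  filter_upwards [hlim.eventually_lt_const hpos] with i hi
  simp only [lt_min_iff] at hi
  obtain ⟨i1, i2, i3⟩ := hi
  have hδi := hδ i
  set d := δ i with hd
  have c1 : (w - ρ) / d ≤ (⌈(w - ρ) / d⌉ : ℝ) := Int.le_ceil _
  have c2 : (⌈(w - ρ) / d⌉ : ℝ) < (w - ρ) / d + 1 := Int.ceil_lt_add_one _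
  have c3 : (⌊2 * ρ / d⌋ : ℝ) ≤ 2 * ρ / d := Int.floor_le _
  have c4 : (w - ρ) / d + 2 * ρ / d = (w + ρ) / d := by ring
  have lt : ∀ x : ℤ, ⌈(w - ρ) / d⌉ ≤ x → w - ρ ≤ d * x := by
    intro x hx
    have : (⌈(w - ρ) / d⌉ : ℝ) ≤ x := by exact_mod_cast hx
    have h4 : (w - ρ) / d ≤ x := c1.trans this
    rw [div_le_iff₀ hδi] at h4
    linarith
  have rt : ∀ x : ℤ, x ≤ ⌈(w - ρ) / d⌉ + (⌊2 * ρ / d⌋ - 1) → d * x ≤ w + ρ := by
    intro x hx
    have : (x : ℝ) ≤ (⌈(w - ρ) / d⌉ : ℝ) + ((⌊2 * ρ / d⌋ : ℝ) - 1) := by exact_mod_cast hx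
    have h4 : (x : ℝ) ≤ (w + ρ) / d := by linarith
    rw [le_div_iff₀ hδi] at h4
    linarith
  have x0a : d * (R.x0 d : ℝ) ≤ -R.A + d := by
    unfold Rect.x0
    push_cast
    have := Int.floor_le (-(R.A / d))
    have h4 : d * (⌊-(R.A / d)⌋ : ℝ) ≤ d * (-(R.A / d)) := mul_le_mul_of_nonneg_left this hδi.le
    have h5 : d * (-(R.A / d)) = -R.A := by field_simp
    linarith
  have x0b : -R.A < d * (R.x0 d : ℝ) := by
    unfold Rect.x0
    push_cast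
    have := Int.lt_floor_add_one (-(R.A / d))
    have h4 : d * (-(R.A / d)) < d * ((⌊-(R.A / d)⌋ : ℝ) + 1) := mul_lt_mul_of_pos_left this hδi
    have h5 : d * (-(R.A / d)) = -R.A := by field_simp
    linarith
  have x1ge : ∀ x : ℤ, d * x < R.B → x ≤ R.x1 d := by
    intro x hx
    unfold Rect.x1
    rw [Int.le_sub_one_iff, Int.lt_ceil, lt_div_iff₀ hδi]
    linarith
  have y1ge : ∀ y : ℤ, d * (y + 1) < R.H → y ≤ R.y1 d := by
    intro y hy
    unfold Rect.y1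
    rw [show (y ≤ ⌈R.H / d⌉ - 2) ↔ y + 1 < ⌈R.H / d⌉ from by omega, Int.lt_ceil,
      lt_div_iff₀ hδi]
    push_cast
    linarith
  have hB := R.hB
  have hx0 : R.x0 d ≤ 0 := by
    have h4 : d * (R.x0 d : ℝ) < d * 1 := by nlinarith
    have h5 : (R.x0 d : ℝ) < 1 := lt_of_mul_lt_mul_left h4 hδi.le
    have h6 : R.x0 d < 1 := by exact_mod_cast h5
    omega
  refine ⟨hLf R d, ⌈(w - ρ) / d⌉, Iso_lcomp Iso_tps (Iso_trl _ _), ?_, ?_, ?_⟩
  · intro r hr e he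
    rw [R.edges_eq]
    have l1 : 0 ≤ ⌈(w - ρ) / d⌉ := by
      have : (0 : ℝ) < (w - ρ) / d := by positivity
      have := Int.ceil_pos.mpr this
      omega
    have l2 : ⌈(w - ρ) / d⌉ + (⌊2 * ρ / d⌋ - 1) ≤ R.y1 d := y1ge _ (by
      have := rt _ le_rfl
      linarith)
    have l3 : R.x0 d + 12 * r ≤ R.x1 d := by
      apply x1ge
      push_cast
      nlinarith
    obtain ⟨x, y, b⟩ := e
    have e1 : (hLf R d).φ (x, y, b) = (y + 0, x + -(R.x0 d), !b) := rfl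
    rw [e1] at he
    cases b
    · simp only [Bool.not_false] at he
      rw [mem_RE_true] at he
      rw [mem_RE_false]
      omega
    · simp only [Bool.not_true] at he
      rw [mem_RE_false] at he
      rw [mem_RE_true]
      omega
  · rintro ⟨x, y⟩ k1 k2 k3
    have e1 : (hLf R d).ψ (x, y) = (y + 0, x + -(R.x0 d)) := rfl
    rw [e1] at k1 k2 k3
    simp only [add_zero] at k1 k2 k3
    have hx : x = R.x0 d := by omega
    subst hx
    apply wired_left R hx0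
    · have h4 := lt y k2
      have h5 : 0 < d * (y : ℝ) := by linarith
      have h6 : (0 : ℝ) < y := by
        by_contra h7
        push Not at h7
        have := mul_nonpos_of_nonneg_of_nonpos hδi.le h7
        linarith
      have h7 : 0 < y := by exact_mod_cast h6
      omega
    · apply y1ge
      have := rt y k3
      linarith
  · rintro ⟨x, y⟩ k1 k2 k3 k4
    have e1 : (hLf R d).ψ (x, y) = (y + 0, x + -(R.x0 d)) := rfl
    rw [e1] at k1 k2 k3 k4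
    simp only [add_zero] at k1 k2 k3 k4
    have l1 := lt y k1
    have l2 := rt y k2
    have l3 : (0 : ℝ) ≤ ((x + -(R.x0 d) : ℤ) : ℝ) := by exact_mod_cast k3
    push_cast at l3 k4
    have l4 : d * ((x : ℝ) + -(R.x0 d)) = d * x - d * R.x0 d := by ring
    have l5 : 0 ≤ d * ((x : ℝ) + -(R.x0 d)) := mul_nonneg hδi.le l3
    unfold csq pt
    simp only [Set.mem_ofPred_eq]
    rw [abs_le, abs_le]
    refine ⟨⟨by linarith, by linarith⟩, ⟨by nlinarith, by nlinarith⟩⟩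

/-- The top side. -/
theorem lower_top (w ρ : ℝ) (hρ : 0 < ρ) (h1 : -R.A < w - ρ) (h2 : w + ρ < R.t)
    (h3 : 3 * ρ ≤ R.H) :
    ∀ᵐ K : NonemptyCompacts ℂ ∂(μ : Measure (NonemptyCompacts ℂ)),
      ENNReal.ofReal (91 / 48) ≤ dimH ((K : Set ℂ) ∩ csq (⟨w, R.H⟩ : ℂ) (3 * ρ)) := by
  apply lower_chart hAr R hδ hlim hμ (⟨w, R.H⟩ : ℂ) hρ
  have hpos : 0 < min (ρ / 4) (min (w - ρ + R.A) (R.t - (w + ρ))) :=
    lt_min (by positivity) (lt_min (by linarith) (by linarith))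
  have hA' : 0 < min (R.A) (R.H / 4) := lt_min R.hA (by have := R.hH; positivity)
  filter_upwards [hlim.eventually_lt_const hpos, hlim.eventually_lt_const hA'] with i hi hi'
  simp only [lt_min_iff] at hi hi'
  obtain ⟨i1, i2, i3⟩ := hi
  obtain ⟨i4, i5⟩ := hi'
  have hδi := hδ i
  set d := δ i with hd
  have c1 : (w - ρ) / d ≤ (⌈(w - ρ) / d⌉ : ℝ) := Int.le_ceil _
  have c2 : (⌈(w - ρ) / d⌉ : ℝ) < (w - ρ) / d + 1 := Int.ceil_lt_add_one _
  have c3 : (⌊2 * ρ / d⌋ : ℝ) ≤ 2 * ρ / d := Int.floor_le _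
  have c4 : (w - ρ) / d + 2 * ρ / d = (w + ρ) / d := by ring
  have lt : ∀ x : ℤ, ⌈(w - ρ) / d⌉ ≤ x → w - ρ ≤ d * x := by
    intro x hx
    have : (⌈(w - ρ) / d⌉ : ℝ) ≤ x := by exact_mod_cast hx
    have h4 : (w - ρ) / d ≤ x := c1.trans this
    rw [div_le_iff₀ hδi] at h4
    linarith
  have rt : ∀ x : ℤ, x ≤ ⌈(w - ρ) / d⌉ + (⌊2 * ρ / d⌋ - 1) → d * x ≤ w + ρ := by
    intro x hx
    have : (x : ℝ) ≤ (⌈(w - ρ) / d⌉ : ℝ) + ((⌊2 * ρ / d⌋ : ℝ) - 1) := by exact_mod_cast hx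
    have h4 : (x : ℝ) ≤ (w + ρ) / d := by linarith
    rw [le_div_iff₀ hδi] at h4
    linarith
  have x0le : ∀ x : ℤ, -R.A < d * x → R.x0 d ≤ x := by
    intro x hx
    unfold Rect.x0
    rw [Int.add_one_le_iff, Int.floor_lt, ← neg_div, div_lt_iff₀ hδi]
    linarith
  have x1ge : ∀ x : ℤ, d * x < R.B → x ≤ R.x1 d := by
    intro x hx
    unfold Rect.x1
    rw [Int.le_sub_one_iff, Int.lt_ceil, lt_div_iff₀ hδi]
    linarith
  have tcge : ∀ x : ℤ, d * x ≤ R.t → x ≤ R.tc d := by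
    intro x hx
    unfold Rect.tc
    rw [Int.le_floor, le_div_iff₀ hδi]
    linarith
  have y1a : R.H - d * 2 ≤ d * (R.y1 d : ℝ) := by
    unfold Rect.y1
    push_cast
    have := Int.le_ceil (R.H / d)
    have h4 : d * (R.H / d) ≤ d * (⌈R.H / d⌉ : ℝ) := mul_le_mul_of_nonneg_left this hδi.le
    have h5 : d * (R.H / d) = R.H := by field_simp
    linarith
  have y1b : d * (R.y1 d : ℝ) ≤ R.H - d := by
    unfold Rect.y1
    push_cast
    have := (Int.ceil_lt_add_one (R.H / d)).le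
    have h4 : d * (⌈R.H / d⌉ : ℝ) ≤ d * (R.H / d + 1) := mul_le_mul_of_nonneg_left this hδi.le
    have h5 : d * (R.H / d) = R.H := by field_simp
    nlinarith
  have hB := R.hB
  have ht2 := R.ht2
  have hx0 : R.x0 d ≤ 0 := by
    apply x0le
    have := R.hA
    simp
    linarith
  have hy1 : 0 ≤ R.y1 d := by
    have h4 : 0 < d * (R.y1 d : ℝ) := by linarith
    have h6 : (0 : ℝ) < R.y1 d := by
      by_contra h7
      push Not at h7
      have := mul_nonpos_of_nonneg_of_nonpos hδi.le h7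
      linarith
    have h7 : 0 < R.y1 d := by exact_mod_cast h6
    omega
  refine ⟨hTp R d, ⌈(w - ρ) / d⌉, Iso_rfy _, ?_, ?_, ?_⟩
  · intro r hr e he
    rw [R.edges_eq]
    have l1 : R.x0 d ≤ ⌈(w - ρ) / d⌉ := x0le _ (by linarith [lt _ le_rfl])
    have l2 : ⌈(w - ρ) / d⌉ + (⌊2 * ρ / d⌋ - 1) ≤ R.x1 d := x1ge _ (by linarith [rt _ le_rfl])
    have l3 : 12 * (r : ℤ) ≤ R.y1 d := by
      have h4 : d * ((12 * r : ℤ) : ℝ) ≤ d * (R.y1 d : ℝ) := by
        push_cast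
        linarith
      have h5 := le_of_mul_le_mul_left h4 hδi
      exact_mod_cast h5
    obtain ⟨x, y, b⟩ := e
    unfold hTp at he
    cases b
    · rw [rfy_φf, mem_RE_false] at he
      rw [mem_RE_false]
      omega
    · rw [rfy_φt, mem_RE_true] at he
      rw [mem_RE_true]
      omega
  · rintro ⟨x, y⟩ k1 k2 k3
    unfold hTp at k1 k2 k3
    rw [rfy_ψ] at k1 k2 k3
    simp only at k1 k2 k3
    have hy : y = R.y1 d := by omega
    subst hy
    apply wired_top R hx0 hy1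
    · exact x0le _ (by linarith [lt x k2])
    · exact tcge _ (by linarith [rt x k3])
  · rintro ⟨x, y⟩ k1 k2 k3 k4
    unfold hTp at k1 k2 k3 k4
    rw [rfy_ψ] at k1 k2 k3 k4
    simp only at k1 k2 k3 k4
    have l1 := lt x k1
    have l2 := rt x k2
    have l3 : (0 : ℝ) ≤ ((R.y1 d - y : ℤ) : ℝ) := by exact_mod_cast k3
    push_cast at l3 k4
    have l5 : 0 ≤ d * ((R.y1 d : ℝ) - y) := mul_nonneg hδi.le l3
    unfold csq pt
    simp only [Set.mem_ofPred_eq]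
    rw [abs_le, abs_le]
    refine ⟨⟨by linarith, by linarith⟩, ⟨by nlinarith, by nlinarith⟩⟩

end

end Pool.Agent.H389R2.CD
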