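import Pool.Agent.H389R2.CD.Box
import Pool.Agent.H389R2.CD.Hit
import Pool.Agent.H934R2.Expl.Pieces

/-!
# Good sets of vertices along the wired arc
-/

set_option autoImplicit false
set_option maxHeartbeats 1000000
set_option linter.unusedSimpArgs false

namespace Pool.Agent.H389R2.CD

open H974 H934E Pool.Agent.H160R2.CV

theorem Iso_lcomp {g h : LSym} (hg : Iso g) (hh : Iso h) : Iso (lcomp g h) := by
  intro x y
  have : ∀ z, (lcomp g h).ψ z = g.ψ (h.ψ z) := fun z => rfl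
  rw [this, this, hg, hh]

theorem Iso_trl (s t : ℤ) : Iso (trl s t) := by
  rintro ⟨x1, x2⟩ ⟨y1, y2⟩
  rw [trl_ψ, trl_ψ]
  unfold nv
  simp

theorem Iso_tps : Iso tps := by
  rintro ⟨x1, x2⟩ ⟨y1, y2⟩
  rw [tps_ψ, tps_ψ]
  unfold nv
  simp only [Prod.fst_sub, Prod.snd_sub]
  exact max_comm _ _

theorem Iso_rfy (k : ℤ) : Iso (rfy k) := by
  rintro ⟨x1, x2⟩ ⟨y1, y2⟩
  rw [rfy_ψ, rfy_ψ]
  unfold nv
  simp only [Prod.fst_sub, Prod.snd_sub]
  congr 1
  omega

theorem Iso_inv {g : LSym} (hg : Iso g) : Iso g.inv := by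
  intro x y
  have h1 := hg (g.inv.ψ x) (g.inv.ψ y)
  have h2 : ∀ z, g.ψ (g.inv.ψ z) = z := fun z => g.ψ.apply_symm_apply z
  rw [h2, h2] at h1
  exact h1.symm

/-- Goodness is invariant under symmetries. -/
theorem SG_map {t a E : ℝ} {r : ℕ} {T : Finset Vtx} (h : SG t a E r T) {g : LSym} (hg : Iso g) :
    SG t a E r (T.map g.ψ.toEmbedding) := by
  obtain ⟨h1, h2⟩ := h
  constructor
  · rw [Finset.card_map]; exact h1
  · refine le_trans (le_of_eq ?_) h2
    unfold eng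
    rw [Finset.sum_map]
    apply Finset.sum_congr rfl
    intro x _
    rw [Finset.sum_map]
    apply Finset.sum_congr rfl
    intro y _
    unfold kn
    have : nv (g.ψ.toEmbedding x - g.ψ.toEmbedding y) = nv (x - y) := hg x y
    rw [this]

/-- The placements of the boxes along a side in the chart `h`. -/
def gg (h : LSym) (X : ℤ) (r j : ℕ) : LSym :=
  lcomp (trl (-(X + 6 * r + j * (12 * r + 1))) (-(6 * (r : ℤ)))) h

theorem gg_φ (h : LSym) (X : ℤ) (r j : ℕ) (e : Edg) : (gg h X r j).φ e =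
    ((h.φ e).1 + -(X + 6 * r + j * (12 * r + 1)), (h.φ e).2.1 + -(6 * (r : ℤ)), (h.φ e).2.2) := rfl

theorem gg_ψ (h : LSym) (X : ℤ) (r j : ℕ) (v : Vtx) : (gg h X r j).ψ v =
    ((h.ψ v).1 + -(X + 6 * r + j * (12 * r + 1)), (h.ψ v).2 + -(6 * (r : ℤ))) := rfl

theorem gg_box {h : LSym} {X : ℤ} {r j : ℕ} {e : Edg} (he : (gg h X r j).φ e ∈ boxE (6 * r)) :
    h.φ e ∈ RE (X + j * (12 * r + 1)) (X + j * (12 * r + 1) + 12 * r) 0 (12 * r) := by
  rw [gg_φ] at he
  generalize h.φ e = e' at he ⊢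
  obtain ⟨x, y, b⟩ := e'
  unfold boxE at he
  cases b
  · rw [mem_RE_false] at he ⊢
    push_cast at he
    omega
  · rw [mem_RE_true] at he ⊢
    push_cast at he
    omega

/-- **Good sets of vertices of the cluster along a side of the wired arc.** -/
theorem strip {t a E p : ℝ} {r : ℕ}
    (hp : ∀ S : Finset Edg, boxE (6 * r) ⊆ S → p ≤ Pr P S (GB t a E r)) (R : Rect) (δ : ℝ)
    (h : LSym) (hI : Iso h) (X L : ℤ) (N : ℕ) (hL : (N : ℤ) * (12 * r + 1) ≤ L)
    (hS : ∀ e, h.φ e ∈ RE X (X + L) 0 (12 * r) → e ∈ R.edges δ)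
    (hW : ∀ u : Vtx, (h.ψ u).2 = 0 → X ≤ (h.ψ u).1 → (h.ψ u).1 ≤ X + L →
      Reach (R.wired δ) (0, 0) u) :
    Pr P (R.edges δ) (fun F => ¬ ∃ T : Finset Vtx, SG t a E r T ∧ ∀ x ∈ T, x ∈ R.clu δ F ∧
      (X ≤ (h.ψ x).1 ∧ (h.ψ x).1 ≤ X + L) ∧ (0 ≤ (h.ψ x).2 ∧ (h.ψ x).2 ≤ 12 * r)) ≤
      (1 - p) ^ N := by
  have hpos : ∀ j : ℕ, j < N → (j : ℤ) * (12 * r + 1) + 12 * r + 1 ≤ N * (12 * r + 1) := by
    intro j hj
    have h1 : ((j : ℤ) + 1) * (12 * r + 1) ≤ N * (12 * r + 1) := by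
      apply mul_le_mul_of_nonneg_right _ (by positivity)
      exact_mod_cast hj
    linarith
  refine le_trans (Pr_mono w_ok ?_) (pr_none_GB hp (gg h X r) N ?_ ?_)
  · intro F _ hF j hj hG
    apply hF
    obtain ⟨T, hT1, hT2, u, hu1, hu2, hu3, hu4⟩ := hG
    set g := gg h X r j with hg
    have hIg : Iso g := Iso_lcomp (Iso_trl _ _) hI
    have hj0 : (0 : ℤ) ≤ (j : ℤ) * (12 * r + 1) := by positivity
    have hjN := hpos j hj
    refine ⟨T.map g.inv.ψ.toEmbedding, SG_map hT1 (Iso_inv hIg), ?_⟩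
    intro x hx
    rw [Finset.mem_map] at hx
    obtain ⟨y, hy, rfl⟩ := hx
    have hy1 := hT2 y hy
    rw [w_mem_bx] at hy1
    have hgy : g.ψ (g.inv.ψ y) = y := g.ψ.apply_symm_apply y
    set v : Vtx := g.inv.ψ y with hv
    have hgy' := hgy
    rw [hg, gg_ψ] at hgy'
    have e1 := congrArg Prod.fst hgy'
    have e2 := congrArg Prod.snd hgy'
    simp only at e1 e2
    -- connection
    have hr1 := g.inv.reach (hu4 y hy)
    have hgu : g.ψ (g.inv.ψ u) = u := g.ψ.apply_symm_apply u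
    have hgu' := hgu
    rw [hg, gg_ψ] at hgu'
    rw [← hg] at hgu'
    have f1 := congrArg Prod.fst hgu'
    have f2 := congrArg Prod.snd hgu'
    simp only at f1 f2
    have hr2 : Reach (↑F : Set Edg) (g.inv.ψ u) v := by
      refine hr1.mono ?_
      rintro e ⟨e', ⟨he1, _⟩, rfl⟩
      rw [Finset.mem_coe, LSym.mem_mp] at he1
      exact Finset.mem_coe.mpr he1
    have hr3 : Reach (R.wired δ) (0, 0) (g.inv.ψ u) := by
      apply hW
      · omega
      · omega
      · omega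
    refine ⟨?_, ?_, ?_⟩
    · show Reach (↑F ∪ R.wired δ) (0, 0) v
      exact (hr3.mono Set.subset_union_right).trans (hr2.mono Set.subset_union_left)
    · show X ≤ (h.ψ v).1 ∧ (h.ψ v).1 ≤ X + L
      omega
    · show 0 ≤ (h.ψ v).2 ∧ (h.ψ v).2 ≤ 12 * r
      omega
  · intro j hj e he
    have h1 := gg_box he
    have hj0 : (0 : ℤ) ≤ (j : ℤ) * (12 * r + 1) := by positivity
    have hjN := hpos j hj
    exact hS e (RE_subset (by omega) (by omega) (by omega) (by omega) h1)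
  · intro i j hij hj e hi he
    have h1 := gg_box hi
    have h2 := gg_box he
    have h3 : (i : ℤ) * (12 * r + 1) + 12 * r + 1 ≤ j * (12 * r + 1) := by
      have h1 : ((i : ℤ) + 1) * (12 * r + 1) ≤ j * (12 * r + 1) := by
        apply mul_le_mul_of_nonneg_right _ (by positivity)
        exact_mod_cast hij
      linarith
    generalize h.φ e = e' at h1 h2
    obtain ⟨x, y, b⟩ := e'
    cases b
    · rw [mem_RE_false] at h1 h2
      omega
    · rw [mem_RE_true] at h1 h2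
      omega

/-! ### The three sides -/

theorem reach_row {G : Set Edg} {y a b : ℤ} (hab : a ≤ b)
    (h : ∀ x, a ≤ x → x < b → ((x, y, true) : Edg) ∈ G) : Reach G (a, y) (b, y) := by
  obtain ⟨n, rfl⟩ : ∃ n : ℕ, b = a + n := ⟨(b - a).toNat, by omega⟩
  induction n with
  | zero => simpa using Reach.refl G (a, y)
  | succ n ih =>
    have h1 := ih (by omega) (fun x h1 h2 => h x h1 (by push_cast; omega))
    refine h1.trans (Adj.reach ⟨(a + n, y, true), h _ (by omega) (by push_cast; omega), ?_⟩)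
    left
    simp only [src_mk, tgt_true]
    exact ⟨trivial, by push_cast; rw [add_assoc]⟩

theorem reach_col {G : Set Edg} {x a b : ℤ} (hab : a ≤ b)
    (h : ∀ y, a ≤ y → y < b → ((x, y, false) : Edg) ∈ G) : Reach G (x, a) (x, b) := by
  obtain ⟨n, rfl⟩ : ∃ n : ℕ, b = a + n := ⟨(b - a).toNat, by omega⟩
  induction n with
  | zero => simpa using Reach.refl G (x, a)
  | succ n ih =>
    have h1 := ih (by omega) (fun y h1 h2 => h y h1 (by push_cast; omega))
    refine h1.trans (Adj.reach ⟨(x, a + n, false), h _ (by omega) (by push_cast; omega), ?_⟩)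
    left
    simp only [src_mk, tgt_false]
    exact ⟨trivial, by push_cast; rw [add_assoc]⟩

theorem wired_bot (R : Rect) {δ : ℝ} {x : ℤ} (h1 : R.x0 δ ≤ x) (h2 : x ≤ 0) :
    Reach (R.wired δ) (0, 0) (x, 0) := by
  refine (reach_row h2 ?_).symm
  intro y h3 h4
  unfold Rect.wired
  simp only [Set.mem_ofPred_eq]
  right; right
  exact ⟨trivial, trivial, by omega, h4⟩

theorem wired_left (R : Rect) {δ : ℝ} (hx : R.x0 δ ≤ 0) {y : ℤ} (h1 : 0 ≤ y) (h2 : y ≤ R.y1 δ) :
    Reach (R.wired δ) (0, 0) (R.x0 δ, y) := by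
  refine (wired_bot R le_rfl hx).trans (reach_col h1 ?_)
  intro z h3 h4
  unfold Rect.wired
  simp only [Set.mem_ofPred_eq]
  right; left
  exact ⟨trivial, trivial, h3, by omega⟩

theorem wired_top (R : Rect) {δ : ℝ} (hx : R.x0 δ ≤ 0) (hy : 0 ≤ R.y1 δ) {x : ℤ}
    (h1 : R.x0 δ ≤ x) (h2 : x ≤ R.tc δ) :
    Reach (R.wired δ) (0, 0) (x, R.y1 δ) := by
  refine (wired_left R hx hy le_rfl).trans (reach_row h1 ?_)
  intro z h3 h4
  unfold Rect.wired
  simp only [Set.mem_ofPred_eq]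
  left
  exact ⟨trivial, trivial, h3, by omega⟩

/-- The identity chart. -/
def hB : LSym := trl 0 0

/-- The chart of the left side. -/
noncomputable def hLf (R : Rect) (δ : ℝ) : LSym := lcomp tps (trl (-(R.x0 δ)) 0)

/-- The chart of the top side. -/
noncomputable def hTp (R : Rect) (δ : ℝ) : LSym := rfy (R.y1 δ)

end Pool.Agent.H389R2.CD
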